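import Pool.Agent.Lib.MP_b3f678_an.Lin3

namespace Pool.Agent.Lib.MP_b3f678_an

open Filter

variable {B : Type*} [AddCommGroup B]

/-- The translation commutes with coefficientwise maps. -/
lemma tr_mapRange {C : Type*} [AddCommMonoid C] (f : B →+ C) (n : ℤ) (z : ℤ →₀ B) :
    tr n (Finsupp.mapRange f (map_zero f) z) = Finsupp.mapRange f (map_zero f) (tr n z) := by
  ext m
  rw [tr_apply, Finsupp.mapRange_apply, Finsupp.mapRange_apply, tr_apply]

theorem alg_prime [Finite B] (p : ℕ) [Fact p.Prime] (M M' : (ℤ →₀ B) →+ (ℤ →₀ B))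
    (hM : ∀ n z, M (tr n z) = tr n (M z)) (hM' : ∀ n z, M' (tr n z) = tr n (M' z))
    (h1 : ∀ z, M (M' z) = z) (h2 : ∀ z, M' (M z) = z)
    (z : ℤ →₀ B) (hz : z ≠ 0) (hp : p • z = 0) (R : ℕ)
    (hR : ∃ᶠ t : ℕ in atTop, (M^[t] z).support.card ≤ R) :
    ∃ w : ℤ →₀ B, w ≠ 0 ∧ ∃ a : ℕ, 0 < a ∧ ∃ b : ℤ, M^[a] w = tr b w := by
  classical
  let W : AddSubgroup B := (nsmulAddMonoidHom (α := B) p).ker
  have hW : ∀ b : B, b ∈ W ↔ p • b = 0 := fun b => Iff.rfl
  let _ : Module (ZMod p) W := AddCommGroup.zmodModule (n := p) (by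
    intro x
    ext
    exact x.2)
  let inc : (ℤ →₀ W) →+ (ℤ →₀ B) := Finsupp.mapRange.addMonoidHom W.subtype
  have hinc_apply : ∀ (y : ℤ →₀ W) (m : ℤ), inc y m = (y m : B) := fun y m => rfl
  have hinc : Function.Injective inc := by
    intro a b hab
    ext m
    have := DFunLike.congr_fun hab m
    rwa [hinc_apply, hinc_apply] at this
  let g : B → W := fun b => if h : p • b = 0 then ⟨b, h⟩ else 0
  have hg : ∀ b, p • b = 0 → (g b : B) = b := by
    intro b hb
    simp only [g, hb, dif_pos]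
  have hg0 : g 0 = 0 := by
    ext
    rw [hg 0 (smul_zero _)]
    rfl
  let lift : (ℤ →₀ B) → (ℤ →₀ W) := Finsupp.mapRange g hg0
  have hlift : ∀ y : ℤ →₀ B, p • y = 0 → inc (lift y) = y := by
    intro y hy
    ext m
    rw [hinc_apply]
    simp only [lift, Finsupp.mapRange_apply]
    apply hg
    have := DFunLike.congr_fun hy m
    simpa using this
  have hpinc : ∀ y, p • inc y = 0 := by
    intro y
    ext m
    rw [Finsupp.smul_apply, hinc_apply]
    exact (y m).2
  have hstab : ∀ (L : (ℤ →₀ B) →+ (ℤ →₀ B)) (y : ℤ →₀ W), inc (lift (L (inc y))) = L (inc y) := by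
    intro L y
    apply hlift
    rw [← map_nsmul, hpinc, map_zero]
  let mk : ((ℤ →₀ B) →+ (ℤ →₀ B)) → ((ℤ →₀ W) →+ (ℤ →₀ W)) := fun L =>
    { toFun := fun y => lift (L (inc y))
      map_zero' := by
        apply hinc
        rw [hstab, map_zero, map_zero]
      map_add' := by
        intro x y
        apply hinc
        rw [hstab, map_add, map_add, map_add, hstab, hstab] }
  have hmk : ∀ L y, inc (mk L y) = L (inc y) := fun L y => hstab L y
  have htr : ∀ n y, inc (tr n y) = tr n (inc y) := by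
    intro n y
    exact (tr_mapRange W.subtype n y).symm
  let N := (mk M).toZModLinearMap p
  let N' := (mk M').toZModLinearMap p
  have hN : ∀ y, inc (N y) = M (inc y) := hmk M
  have hN' : ∀ y, inc (N' y) = M' (inc y) := hmk M'
  have hiter : ∀ (t : ℕ) y, inc (N^[t] y) = M^[t] (inc y) := by
    intro t y
    induction t with
    | zero => rfl
    | succ t ih => rw [Function.iterate_succ_apply', hN, ih, Function.iterate_succ_apply']
  have hcard : ∀ y : ℤ →₀ W, (inc y).support.card = y.support.card := by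
    intro y
    congr 1
    ext m
    rw [Finsupp.mem_support_iff, Finsupp.mem_support_iff, hinc_apply]
    simp
  obtain ⟨w, hw, a, ha, b, hab⟩ := alg_lin (k := ZMod p) N N'
    (by intro n y; apply hinc; rw [hN, htr, hM, htr, hN])
    (by intro n y; apply hinc; rw [hN', htr, hM', htr, hN'])
    (by intro y; apply hinc; rw [hN, hN', h1])
    (by intro y; apply hinc; rw [hN', hN, h2])
    (lift z) (by
      intro h
      apply hz
      rw [← hlift z hp, h, map_zero]) R (by
      refine hR.mono fun t ht => ?_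
      rw [← hcard, hiter, hlift z hp]
      exact ht)
  refine ⟨inc w, ?_, a, ha, b, ?_⟩
  · intro h
    apply hw
    apply hinc
    rw [h, map_zero]
  · rw [← hiter, hab, htr]

/-- If the supports of the iterates of a nonzero element are bounded in size infinitely often,
then some nonzero element is translated by an iterate. -/
theorem alg [Finite B] (M M' : (ℤ →₀ B) →+ (ℤ →₀ B))
    (hM : ∀ n z, M (tr n z) = tr n (M z)) (hM' : ∀ n z, M' (tr n z) = tr n (M' z))
    (h1 : ∀ z, M (M' z) = z) (h2 : ∀ z, M' (M z) = z)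
    (z : ℤ →₀ B) (hz : z ≠ 0) (R : ℕ)
    (hR : ∃ᶠ t : ℕ in atTop, (M^[t] z).support.card ≤ R) :
    ∃ w : ℤ →₀ B, w ≠ 0 ∧ ∃ a : ℕ, 0 < a ∧ ∃ b : ℤ, M^[a] w = tr b w := by
  classical
  have hcard : Nat.card B • z = 0 := by
    ext m
    rw [Finsupp.smul_apply]
    exact card_nsmul_eq_zero'
  set N := addOrderOf z with hN
  have hNpos : 0 < N := by
    rw [hN, addOrderOf_pos_iff, isOfFinAddOrder_iff_nsmul_eq_zero]
    exact ⟨Nat.card B, Nat.card_pos, hcard⟩
  have hN1 : N ≠ 1 := by
    intro h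
    exact hz (AddMonoid.addOrderOf_eq_one_iff.1 h)
  have hpp : (Nat.minFac N).Prime := Nat.minFac_prime hN1
  have : Fact (Nat.minFac N).Prime := ⟨hpp⟩
  obtain ⟨c, hc⟩ := Nat.minFac_dvd N
  have hit : ∀ (t : ℕ), M^[t] (c • z) = c • M^[t] z := by
    intro t
    induction t with
    | zero => rfl
    | succ t ih => rw [Function.iterate_succ_apply', ih, map_nsmul, Function.iterate_succ_apply']
  refine alg_prime (Nat.minFac N) M M' hM hM' h1 h2 (c • z) ?_ ?_ R ?_
  · intro h
    have h3 := addOrderOf_dvd_of_nsmul_eq_zero h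
    rw [← hN] at h3
    have hc0 : 0 < c := Nat.pos_of_ne_zero (by rintro rfl; omega)
    have h4 := Nat.le_of_dvd hc0 h3
    have h5 : 2 ≤ Nat.minFac N := hpp.two_le
    nlinarith
  · rw [← mul_smul, ← hc, hN, addOrderOf_nsmul_eq_zero]
  · refine hR.mono fun t ht => ?_
    rw [hit]
    refine le_trans (Finset.card_le_card ?_) ht
    exact Finsupp.support_smul

end Pool.Agent.Lib.MP_b3f678_an
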