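import Mathlib

/-!
# Field-theoretic core

If `l ^ s` is a sum of a bounded number of terms `x ^ n * g` for infinitely many `s`,
and the norm of `l` has opposite valuations at the two places where `x` is not a unit,
then some positive power of `l` is a power of `x`.
-/

namespace Pool.Agent.Lib.MP_b3f678_an

open WithZero Matrix

section Dominance

variable {Γ : Type*} [LinearOrderedCommGroupWithZero Γ]
variable {K : Type*} [Field K]

/-- Unit perturbation of the identity matrix. -/
lemma val_det_one_add {n : Type*} [Fintype n] [DecidableEq n] (v : Valuation K Γ)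
    (B : Matrix n n K) (hB : ∀ i j, v (B i j) < 1) : v (det (1 + B)) = 1 := by
  classical
  let B' : Matrix n n v.integer := Matrix.of fun i j => ⟨B i j, (hB i j).le⟩
  have hB' : ∀ i j, ((B' i j : v.integer) : K) = B i j := fun i j => rfl
  have h1 : (det (1 + B) : K) = ((det (1 + B') : v.integer) : K) := by
    have := RingHom.map_det (v.integer.subtype) (1 + B')
    simp only [RingHom.mapMatrix_apply] at this
    rw [show ((det (1 + B') : v.integer) : K) = v.integer.subtype (det (1 + B')) from rfl, this]
    congr 1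
    ext i j
    rw [Matrix.map_apply, Matrix.add_apply, Matrix.add_apply, map_add, Subring.subtype_apply,
      Subring.subtype_apply, hB']
    congr 1
    by_cases hij : i = j
    · subst hij; simp
    · simp [hij]
  let I : Ideal v.integer :=
    { carrier := {a | v (a : K) < 1}
      add_mem' := fun {a b} ha hb => lt_of_le_of_lt (v.map_add _ _) (max_lt ha hb)
      zero_mem' := by simp
      smul_mem' := fun c x hx => by
        simp only [Set.mem_ofPred_eq, smul_eq_mul, Subring.coe_mul, map_mul] at hx ⊢
        calc v (c : K) * v (x : K) ≤ 1 * v (x : K) := mul_le_mul_left c.2 _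
          _ < 1 := by rwa [one_mul] }
  have h2 : det (1 + B') - 1 ∈ I := by
    rw [← Ideal.Quotient.mk_eq_mk_iff_sub_mem, RingHom.map_det, map_one]
    have : (Ideal.Quotient.mk I).mapMatrix (1 + B') = 1 := by
      ext i j
      have hz : Ideal.Quotient.mk I (B' i j) = 0 := by
        rw [Ideal.Quotient.eq_zero_iff_mem]
        exact hB i j
      by_cases hij : i = j
      · subst hij; simp [hz]
      · simp [hz, hij]
    rw [this, det_one]
  have h3 : v (det (1 + B) - 1) < 1 := by
    rw [h1]
    exact h2
  have h4 : v (det (1 + B)) = v (1 + (det (1 + B) - 1)) := by congr 1; ring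
  rw [h4, Valuation.map_one_add_of_lt v h3]

lemma exists_small (s : Finset Γ) : ∃ c : Γ, c ≠ 0 ∧ ∀ γ ∈ s, c * γ ≤ 1 := by
  classical
  induction s using Finset.induction_on with
  | empty => exact ⟨1, one_ne_zero, by simp⟩
  | insert a s _ ih =>
    obtain ⟨c, hc, h⟩ := ih
    by_cases ha : c * a ≤ 1
    · refine ⟨c, hc, ?_⟩
      intro γ hγ
      rcases Finset.mem_insert.1 hγ with rfl | hγ
      · exact ha
      · exact h _ hγ
    · have ha0 : a ≠ 0 := by
        rintro rfl
        simp at ha
      refine ⟨a⁻¹, inv_ne_zero ha0, ?_⟩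
      intro γ hγ
      rcases Finset.mem_insert.1 hγ with rfl | hγ
      · rw [inv_mul_cancel₀ ha0]
      · have h1 : a⁻¹ ≤ c := by
          push Not at ha
          rw [inv_le_comm₀ (zero_lt_iff.2 ha0) (zero_lt_iff.2 hc)]
          rw [← one_div, div_le_iff₀ (zero_lt_iff.2 hc), mul_comm]
          exact ha.le
        exact (mul_le_mul_left h1 _).trans (h _ hγ)

variable {E : Type*} [Field E] [Algebra K E] [FiniteDimensional K E]

/-- The norm of a sum with one dominating scalar. -/
lemma val_norm_dominant {ι : Type*} [DecidableEq ι] (v : Valuation K Γ) (S : Finset ι)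
    (g : ι → E) (i : ι) (hi : i ∈ S) (hgi : g i ≠ 0) :
    ∃ c : Γ, c ≠ 0 ∧ ∀ a : ι → K, a i ≠ 0 → (∀ j ∈ S, j ≠ i → v (a j) < c * v (a i)) →
      v (Algebra.norm K (∑ j ∈ S, algebraMap K E (a j) * g j)) =
        v (a i) ^ (Module.finrank K E) * v (Algebra.norm K (g i)) := by
  classical
  let b := Module.finBasis K E
  let H : ι → Matrix _ _ K := fun j => Algebra.leftMulMatrix b (g j / g i)
  obtain ⟨c, hc, hcH⟩ := exists_small
    (Finset.image (fun q : ι × (Fin (Module.finrank K E)) × (Fin (Module.finrank K E)) =>
      v (H q.1 q.2.1 q.2.2)) (S ×ˢ Finset.univ))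
  refine ⟨c, hc, ?_⟩
  intro a hai ha
  have hva : v (a i) ≠ 0 := (Valuation.ne_zero_iff v).2 hai
  have hai' : algebraMap K E (a i) ≠ 0 := by
    simpa using hai
  set z : E := ∑ j ∈ S.erase i, algebraMap K E (a j / a i) * (g j / g i) with hz
  have h1 : (∑ j ∈ S, algebraMap K E (a j) * g j) = algebraMap K E (a i) * (g i * (1 + z)) := by
    rw [← Finset.add_sum_erase S _ hi, mul_add, mul_one, mul_add, hz, Finset.mul_sum,
      Finset.mul_sum]
    congr 1
    refine Finset.sum_congr rfl fun j _ => ?_
    rw [map_div₀]
    field_simp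
  rw [h1, map_mul, map_mul, Algebra.norm_algebraMap, map_mul, map_mul, map_pow]
  have h2 : v (Algebra.norm K (1 + z)) = 1 := by
    rw [Algebra.norm_eq_matrix_det b, map_add, map_one]
    apply val_det_one_add
    intro k l
    rw [hz, map_sum, Matrix.sum_apply]
    refine Valuation.map_sum_lt v one_ne_zero ?_
    intro j hj
    have hj' := Finset.mem_erase.1 hj
    rw [map_mul, AlgHom.commutes]
    have h3 : ((algebraMap K (Matrix (Fin (Module.finrank K E)) (Fin (Module.finrank K E)) K)
        (a j / a i)) * Algebra.leftMulMatrix b (g j / g i)) k l = (a j / a i) * H j k l := by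
      rw [Matrix.algebraMap_eq_diagonal]
      simp [Matrix.diagonal_mul, H]
    rw [h3, map_mul, map_div₀]
    by_cases hH : v (H j k l) = 0
    · rw [hH, mul_zero]; exact zero_lt_one
    have h4 : v (a j) / v (a i) < c := by
      rw [div_lt_iff₀ (zero_lt_iff.2 hva)]
      exact ha j hj'.2 hj'.1
    have h5 : c * v (H j k l) ≤ 1 := by
      apply hcH
      exact Finset.mem_image.2 ⟨(j, k, l), by simp [hj'.2], rfl⟩
    exact lt_of_lt_of_le (mul_lt_mul_of_pos_right h4 (zero_lt_iff.2 hH)) h5
  rw [h2, mul_one]

end Dominance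

end Pool.Agent.Lib.MP_b3f678_an
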