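import Pool.Agent.Lib.MP_b3f678_an.Core

namespace Pool.Agent.Lib.MP_b3f678_an

open WithZero Filter

variable {K : Type*} [Field K] {E : Type*} [Field E] [Algebra K E] [FiniteDimensional K E]

lemma val_zpow_neg {v : Valuation K ℤᵐ⁰} {x : K} (hx : v x = exp (-1)) (n : ℤ) :
    v (x ^ n) = exp (-n) := by
  rw [map_zpow₀, hx, ← exp_zsmul]; simp

lemma val_zpow_pos {v : Valuation K ℤᵐ⁰} {x : K} (hx : v x = exp 1) (n : ℤ) :
    v (x ^ n) = exp n := by
  rw [map_zpow₀, hx, ← exp_zsmul]; simp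

/-- If the terms are pairwise far apart there is at most one of them. -/
lemma no_two_terms (v0 v1 : Valuation K ℤᵐ⁰) (x : K) (hx0 : v0 x = exp (-1))
    (hx1 : v1 x = exp 1) (l : E)
    (hν : v0 (Algebra.norm K l) * v1 (Algebra.norm K l) = 1)
    {ι : Type*} [DecidableEq ι] (S : Finset ι) (s : ℕ → ℕ) (n : ι → ℕ → ℤ) (g : ι → E)
    (h : ∀ k, l ^ (s k) = ∑ j ∈ S, algebraMap K E (x ^ (n j k)) * g j)
    (hg : ∀ j ∈ S, g j ≠ 0)
    (hn : ∀ i ∈ S, ∀ j ∈ S, i ≠ j → Tendsto (fun k => |n i k - n j k|) atTop atTop)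
    (p q : ι) (hp : p ∈ S) (hq : q ∈ S) (hpq : p ≠ q) : False := by
  classical
  have hx : x ≠ 0 := by
    rintro rfl
    rw [map_zero] at hx0
    exact exp_ne_zero hx0.symm
  have hc0 : ∀ i : ι, ∃ C : ℤ, i ∈ S → ∀ a : ι → K, a i ≠ 0 →
      (∀ j ∈ S, j ≠ i → v0 (a j) < exp (-C) * v0 (a i)) →
      v0 (Algebra.norm K (∑ j ∈ S, algebraMap K E (a j) * g j)) =
        v0 (a i) ^ (Module.finrank K E) * v0 (Algebra.norm K (g i)) := by
    intro i
    by_cases hi : i ∈ S
    · obtain ⟨c, hc, hh⟩ := val_norm_dominant v0 S g i hi (hg i hi)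
      refine ⟨-(log c), fun _ => ?_⟩
      rw [neg_neg, exp_log hc]
      exact hh
    · exact ⟨0, fun h => absurd h hi⟩
  have hc1 : ∀ i : ι, ∃ C : ℤ, i ∈ S → ∀ a : ι → K, a i ≠ 0 →
      (∀ j ∈ S, j ≠ i → v1 (a j) < exp (-C) * v1 (a i)) →
      v1 (Algebra.norm K (∑ j ∈ S, algebraMap K E (a j) * g j)) =
        v1 (a i) ^ (Module.finrank K E) * v1 (Algebra.norm K (g i)) := by
    intro i
    by_cases hi : i ∈ S
    · obtain ⟨c, hc, hh⟩ := val_norm_dominant v1 S g i hi (hg i hi)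
      refine ⟨-(log c), fun _ => ?_⟩
      rw [neg_neg, exp_log hc]
      exact hh
    · exact ⟨0, fun h => absurd h hi⟩
  choose C0 hC0 using hc0
  choose C1 hC1 using hc1
  -- a uniform bound
  obtain ⟨C, hC⟩ : ∃ C : ℤ, ∀ i ∈ S, C0 i < C ∧ C1 i < C := by
    obtain ⟨C, hC⟩ := (S.image fun i => max (C0 i) (C1 i)).exists_le
    refine ⟨C + 1, fun i hi => ?_⟩
    have := hC _ (Finset.mem_image_of_mem (fun i => max (C0 i) (C1 i)) hi)
    constructor <;> omega
  -- bound for norms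
  obtain ⟨D, hD⟩ : ∃ D : ℤ, ∀ i ∈ S, ∀ j ∈ S,
      - log (v0 (Algebra.norm K (g i)) * v1 (Algebra.norm K (g j))) ≤ D := by
    obtain ⟨D, hD⟩ := ((S ×ˢ S).image fun q : ι × ι =>
      - log (v0 (Algebra.norm K (g q.1)) * v1 (Algebra.norm K (g q.2)))).exists_le
    refine ⟨D, fun i hi j hj => ?_⟩
    exact hD _ (Finset.mem_image.2 ⟨(i, j), by simp [hi, hj], rfl⟩)
  have hev : ∀ᶠ k in atTop, (∀ i ∈ S, ∀ j ∈ S, i ≠ j → C ≤ |n i k - n j k|) ∧
      D + 1 ≤ |n p k - n q k| := by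
    refine Filter.Eventually.and ?_ ?_
    · rw [Filter.eventually_all_finset]
      intro i hi
      rw [Filter.eventually_all_finset]
      intro j hj
      by_cases hij : i = j
      · exact Filter.Eventually.of_forall fun k h => absurd hij h
      · exact (hn i hi j hj hij).eventually_ge_atTop C |>.mono fun k hk _ => hk
    · exact (hn p hp q hq hpq).eventually_ge_atTop (D + 1)
  obtain ⟨k, hk1, hk2⟩ := hev.exists
  obtain ⟨i0, hi0, hmin⟩ := S.exists_min_image (fun i => n i k) ⟨p, hp⟩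
  obtain ⟨i1, hi1, hmax⟩ := S.exists_max_image (fun i => n i k) ⟨p, hp⟩
  have e0 := hC0 i0 hi0 (fun j => x ^ (n j k)) (zpow_ne_zero _ hx) (by
    intro j hj hji
    rw [val_zpow_neg hx0, val_zpow_neg hx0, ← exp_add, exp_lt_exp]
    have h1 := hk1 j hj i0 hi0 hji
    have h2 := hmin j hj
    have h3 := (hC i0 hi0).1
    rw [abs_of_nonneg (by omega)] at h1
    omega)
  have e1 := hC1 i1 hi1 (fun j => x ^ (n j k)) (zpow_ne_zero _ hx) (by
    intro j hj hji
    rw [val_zpow_pos hx1, val_zpow_pos hx1, ← exp_add, exp_lt_exp]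
    have h1 := hk1 j hj i1 hi1 hji
    have h2 := hmax j hj
    have h3 := (hC i1 hi1).2
    rw [abs_of_nonpos (by omega)] at h1
    omega)
  rw [← h k, map_pow, map_pow, val_zpow_neg hx0] at e0
  rw [← h k, map_pow, map_pow, val_zpow_pos hx1] at e1
  have e2 : (v0 (Algebra.norm K l) * v1 (Algebra.norm K l)) ^ (s k) =
      exp ((Module.finrank K E : ℤ) * (n i1 k - n i0 k)) *
        (v0 (Algebra.norm K (g i0)) * v1 (Algebra.norm K (g i1))) := by
    rw [mul_pow, e0, e1, ← exp_nsmul, ← exp_nsmul]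
    rw [show (Module.finrank K E : ℤ) * (n i1 k - n i0 k) =
      Module.finrank K E • (- n i0 k) + Module.finrank K E • (n i1 k) by
        simp only [nsmul_eq_mul]; ring, exp_add]
    exact mul_mul_mul_comm _ _ _ _
  rw [hν, one_pow] at e2
  have hne0 : v0 (Algebra.norm K (g i0)) ≠ 0 :=
    (Valuation.ne_zero_iff v0).2 (Algebra.norm_ne_zero_iff.2 (hg i0 hi0))
  have hne1 : v1 (Algebra.norm K (g i1)) ≠ 0 :=
    (Valuation.ne_zero_iff v1).2 (Algebra.norm_ne_zero_iff.2 (hg i1 hi1))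
  have e3 := congrArg log e2
  rw [log_one, log_mul exp_ne_zero (mul_ne_zero hne0 hne1), log_exp] at e3
  have e4 := hD i0 hi0 i1 hi1
  have e5 : |n p k - n q k| ≤ n i1 k - n i0 k := by
    have a1 := hmin p hp
    have a2 := hmin q hq
    have a3 := hmax p hp
    have a4 := hmax q hq
    rw [abs_le]
    constructor <;> omega
  have hm : (1 : ℤ) ≤ Module.finrank K E := by
    have := Module.finrank_pos (R := K) (M := E)
    omega
  have e6 : n i1 k - n i0 k ≤ (Module.finrank K E : ℤ) * (n i1 k - n i0 k) := by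
    have : 0 ≤ n i1 k - n i0 k := (abs_nonneg _).trans e5
    nlinarith
  omega

/-- The core statement. -/
theorem core (v0 v1 : Valuation K ℤᵐ⁰) (x : K) (hx0 : v0 x = exp (-1))
    (hx1 : v1 x = exp 1) (l : E) (hl : l ≠ 0)
    (hν : v0 (Algebra.norm K l) * v1 (Algebra.norm K l) = 1)
    {ι : Type*} (N : ℕ) : ∀ (S : Finset ι), S.card = N →
    ∀ (s : ℕ → ℕ), StrictMono s → ∀ (n : ι → ℕ → ℤ) (g : ι → E),
    (∀ k, l ^ (s k) = ∑ j ∈ S, algebraMap K E (x ^ (n j k)) * g j) →
    ∃ a : ℕ, 0 < a ∧ ∃ b : ℤ, l ^ a = algebraMap K E (x ^ b) := by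
  classical
  have hx : x ≠ 0 := by
    rintro rfl
    rw [map_zero] at hx0
    exact exp_ne_zero hx0.symm
  have hxE : algebraMap K E x ≠ 0 := by simpa using hx
  induction N using Nat.strong_induction_on with
  | _ N ih =>
  intro S hS s hs n g h
  by_cases hg : ∀ j ∈ S, g j ≠ 0
  swap
  · push Not at hg
    obtain ⟨j, hj, hgj⟩ := hg
    refine ih (S.erase j).card ?_ (S.erase j) rfl s hs n g ?_
    · rw [← hS]; exact Finset.card_erase_lt_of_mem hj
    · intro k
      rw [h k, ← Finset.add_sum_erase S _ hj, hgj, mul_zero, zero_add]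
  by_cases hn : ∀ i ∈ S, ∀ j ∈ S, i ≠ j → Tendsto (fun k => |n i k - n j k|) atTop atTop
  swap
  · push Not at hn
    obtain ⟨i, hi, j, hj, hij, hnt⟩ := hn
    rw [tendsto_atTop] at hnt
    push Not at hnt
    obtain ⟨B, hB⟩ := hnt
    have hfreq : ∃ᶠ k in atTop, n i k - n j k ∈ Set.Icc (-B) B := by
      refine hB.mono fun k hk => ?_
      rw [abs_lt] at hk
      exact ⟨hk.1.le, hk.2.le⟩
    obtain ⟨δ, hδ⟩ : ∃ δ : ℤ, ∃ᶠ k in atTop, n i k - n j k = δ := by
      by_contra hcon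
      push Not at hcon
      apply hfreq
      have : ∀ᶠ k in atTop, ∀ δ ∈ Finset.Icc (-B) B, n i k - n j k ≠ δ := by
        rw [Filter.eventually_all_finset]
        intro δ _
        exact hcon δ
      refine this.mono fun k hk hmem => ?_
      exact hk _ (by simpa using hmem) rfl
    obtain ⟨φ, hφ, hφδ⟩ := Filter.extraction_of_frequently_atTop hδ
    refine ih (S.erase i).card ?_ (S.erase i) rfl (s ∘ φ) (hs.comp hφ) (fun m k => n m (φ k))
      (Function.update g j (g j + algebraMap K E (x ^ δ) * g i)) ?_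
    · rw [← hS]; exact Finset.card_erase_lt_of_mem hi
    · intro k
      have hj' : j ∈ S.erase i := Finset.mem_erase.2 ⟨hij.symm, hj⟩
      simp only [Function.comp]
      rw [h (φ k), ← Finset.add_sum_erase S _ hi, ← Finset.add_sum_erase _ _ hj',
        ← Finset.add_sum_erase _ (fun m => algebraMap K E (x ^ n m (φ k)) *
          Function.update g j (g j + algebraMap K E (x ^ δ) * g i) m) hj', Function.update_self,
        ← add_assoc]
      congr 1
      · have : n i (φ k) = n j (φ k) + δ := by have := hφδ k; omega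
        rw [this, zpow_add₀ hx, map_mul]
        ring
      · refine Finset.sum_congr rfl fun m hm => ?_
        rw [Function.update_of_ne (Finset.mem_erase.1 hm).1]
  have hsub : ∀ p ∈ S, ∀ q ∈ S, p = q := by
    intro p hp q hq
    by_contra hpq
    exact no_two_terms v0 v1 x hx0 hx1 l hν S s n g h hg hn p q hp hq hpq
  have hSne : S.Nonempty := by
    by_contra hne
    rw [Finset.not_nonempty_iff_eq_empty] at hne
    have := h 0
    rw [hne, Finset.sum_empty] at this
    exact pow_ne_zero _ hl this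
  obtain ⟨j, hj⟩ := hSne
  have hSj : S = {j} := by
    ext m
    simp only [Finset.mem_singleton]
    exact ⟨fun hm => hsub m hm j hj, fun hm => hm ▸ hj⟩
  subst hSj
  have h0 := h 0
  have h1 := h 1
  rw [Finset.sum_singleton] at h0 h1
  have hs01 : s 0 < s 1 := hs Nat.zero_lt_one
  refine ⟨s 1 - s 0, by omega, n j 1 - n j 0, ?_⟩
  have hl0 : l ^ s 0 ≠ 0 := pow_ne_zero _ hl
  have h2 : l ^ (s 1 - s 0) * l ^ s 0 = algebraMap K E (x ^ (n j 1 - n j 0)) * l ^ s 0 := by
    rw [← pow_add, Nat.sub_add_cancel hs01.le, h0, h1, ← mul_assoc, ← map_mul, ← zpow_add₀ hx]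
    congr 3
    ring
  exact mul_right_cancel₀ hl0 h2

end Pool.Agent.Lib.MP_b3f678_an
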