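import Mathlib

/-!
# Definitions

Abelian cellular automata on `A^ℤ` (`A` a finite abelian group), characters of `A^ℤ` and their
rank, harmonically mixing measures, strong randomization and randomization in density.
-/

namespace Pool.Agent.Lib.MP_b3f678_an

open MeasureTheory Filter Topology

variable {A : Type*} [AddCommGroup A]

/-- The shift on configurations. -/
def shift (x : ℤ → A) : ℤ → A := fun i => x (i + 1)

/-- An abelian cellular automaton: a continuous group endomorphism of `A^ℤ` commuting with the
shift. -/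
structure IsAbelianCA [TopologicalSpace A] (F : (ℤ → A) → (ℤ → A)) : Prop where
  continuous : Continuous F
  shift_comm : ∀ x, F (shift x) = shift (F x)
  map_add : ∀ x y, F (x + y) = F x + F y

/-- The value at `x` of the character `∏ k, χ k`, where `χ` is a finitely supported family of
characters of `A` (a character is trivial iff it equals `0 : AddChar A ℂ`). -/
noncomputable def charEval (χ : ℤ →₀ AddChar A ℂ) (x : ℤ → A) : ℂ :=
  ∏ k ∈ χ.support, χ k (x k)

/-- The rank: the number of cells on which the character is nontrivial. -/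
def rank (χ : ℤ →₀ AddChar A ℂ) : ℕ := χ.support.card

variable [MeasurableSpace A]

/-- The Fourier coefficient of a measure at a character. -/
noncomputable def fourierCoef (μ : Measure (ℤ → A)) (χ : ℤ →₀ AddChar A ℂ) : ℂ :=
  ∫ x, charEval χ x ∂μ

/-- Harmonic mixing: the Fourier coefficients tend to zero as the rank tends to infinity. -/
def HarmonicallyMixing (μ : Measure (ℤ → A)) : Prop :=
  ∀ ε : ℝ, 0 < ε → ∃ R : ℕ, ∀ χ : ℤ →₀ AddChar A ℂ, R < rank χ → ‖fourierCoef μ χ‖ < ε

variable (A) in
/-- The uniform Bernoulli measure on `A^ℤ`. -/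
noncomputable def uniformBernoulli [Finite A] : Measure (ℤ → A) :=
  Measure.infinitePi fun _ : ℤ => ProbabilityTheory.uniformOn (Set.univ : Set A)

/-- Weak-* convergence along the filter `l` of the images of `μ` under `F^t` to the uniform
Bernoulli measure. -/
def ConvergesToUniform [Finite A] [TopologicalSpace A] (F : (ℤ → A) → (ℤ → A))
    (μ : Measure (ℤ → A)) (l : Filter ℕ) : Prop :=
  ∀ f : C(ℤ → A, ℝ), Tendsto (fun t : ℕ => ∫ x, f x ∂(μ.map F^[t])) l
    (𝓝 (∫ x, f x ∂(uniformBernoulli A)))

/-- Strong randomization. -/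
def StronglyRandomizing [Finite A] [TopologicalSpace A] (F : (ℤ → A) → (ℤ → A)) : Prop :=
  ∀ μ : Measure (ℤ → A), IsProbabilityMeasure μ → HarmonicallyMixing μ →
    ConvergesToUniform F μ atTop

/-- Lower density one. -/
def LowerDensityOne (D : Set ℕ) : Prop :=
  liminf (fun n : ℕ => ((D ∩ Set.Icc 0 n).ncard : ℝ) / n) atTop = 1

/-- Randomization in density. -/
def RandomizingInDensity [Finite A] [TopologicalSpace A] (F : (ℤ → A) → (ℤ → A)) : Prop :=
  ∀ μ : Measure (ℤ → A), IsProbabilityMeasure μ → HarmonicallyMixing μ →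
    ∃ D : Set ℕ, LowerDensityOne D ∧ ConvergesToUniform F μ (atTop ⊓ 𝓟 D)

end Pool.Agent.Lib.MP_b3f678_an
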