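import Pool.Agent.Lib.MP_b3f678_an.Dual

namespace Pool.Agent.Lib.MP_b3f678_an

open Filter Topology

variable {A : Type*} [AddCommGroup A] [Finite A] [TopologicalSpace A] [DiscreteTopology A]

lemma exists_inverse_CA {F : (ℤ → A) → (ℤ → A)} (hF : IsAbelianCA F)
    (hb : Function.Bijective F) :
    ∃ G : (ℤ → A) → (ℤ → A), IsAbelianCA G ∧ (∀ x, F (G x) = x) ∧ ∀ x, G (F x) = x := by
  let e := Equiv.ofBijective F hb
  have hc : Continuous e := hF.continuous
  have h1 : ∀ x, F (e.symm x) = x := fun x => e.apply_symm_apply x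
  have h2 : ∀ x, e.symm (F x) = x := fun x => e.symm_apply_apply x
  refine ⟨e.symm, ⟨?_, ?_, ?_⟩, h1, h2⟩
  · exact (Continuous.homeoOfEquivCompactToT2 hc).symm.continuous
  · intro x
    apply hb.1
    rw [h1, hF.shift_comm, h1]
  · intro x y
    apply hb.1
    rw [h1, hF.map_add, h1, h1]

/-- The dichotomy: either all ranks tend to infinity, or some rank stays bounded. -/
theorem dichotomy {F : (ℤ → A) → (ℤ → A)} (hF : IsAbelianCA F)
    (hb : Function.Bijective F) :
    ∃ M : (ℤ →₀ AddChar A ℂ) →+ (ℤ →₀ AddChar A ℂ),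
      (∀ (t : ℕ) χ x, charEval (M^[t] χ) x = charEval χ (F^[t] x)) ∧
      (∀ (t : ℕ) χ, χ ≠ 0 → M^[t] χ ≠ 0) ∧
      ((∀ χ, χ ≠ 0 → ∀ R : ℕ, ∀ᶠ t : ℕ in atTop, R < rank (M^[t] χ)) ∨
       (∃ w, w ≠ 0 ∧ ∃ R : ℕ, ∀ t : ℕ, rank (M^[t] w) ≤ R)) := by
  classical
  obtain ⟨G, hG, hFG, hGF⟩ := exists_inverse_CA hF hb
  obtain ⟨M, hMtr, hM⟩ := exists_dual hF
  obtain ⟨M', hM'tr, hM'⟩ := exists_dual hG
  have h1 : ∀ z, M (M' z) = z := by
    intro z
    apply charEval_injective
    intro x
    rw [hM, hM', hGF]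
  have h2 : ∀ z, M' (M z) = z := by
    intro z
    apply charEval_injective
    intro x
    rw [hM', hM, hFG]
  have hiter : ∀ (t : ℕ) χ x, charEval (M^[t] χ) x = charEval χ (F^[t] x) := by
    intro t
    induction t with
    | zero => intro χ x; rfl
    | succ t ih => intro χ x; rw [Function.iterate_succ_apply, ih, hM, Function.iterate_succ_apply']
  have hne : ∀ (t : ℕ) χ, χ ≠ 0 → M^[t] χ ≠ 0 := by
    intro t
    induction t with
    | zero => intro χ h; exact h
    | succ t ih =>
      intro χ h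
      rw [Function.iterate_succ_apply]
      apply ih
      intro h0
      apply h
      rw [← h2 χ, h0, map_zero]
  refine ⟨M, hiter, hne, ?_⟩
  by_contra hcon
  push Not at hcon
  obtain ⟨⟨χ, hχ, R, hR⟩, hno⟩ := hcon
  have : Finite (AddChar A ℂ) := inferInstance
  obtain ⟨w, hw, a, ha, b, hab⟩ := alg M M' hMtr hM'tr h1 h2 χ hχ R (by
    refine hR.mono fun t ht => ?_
    exact ht)
  -- bounded rank
  have htr : ∀ (t : ℕ) n z, M^[t] (tr n z) = tr n (M^[t] z) := by
    intro t
    induction t with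
    | zero => intro n z; rfl
    | succ t ih => intro n z; rw [Function.iterate_succ_apply, hMtr, ih, Function.iterate_succ_apply]
  have hmul : ∀ (s r : ℕ), rank (M^[a * s + r] w) = rank (M^[r] w) := by
    intro s
    induction s with
    | zero => intro r; simp
    | succ s ih =>
      intro r
      have : a * (s + 1) + r = (a * s + r) + a := by ring
      rw [this, Function.iterate_add_apply, hab, htr, ← ih r]
      exact tr_card _ _
  obtain ⟨t, ht⟩ := hno w hw ((Finset.range a).sup fun r => rank (M^[r] w))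
  have h3 : rank (M^[t] w) = rank (M^[t % a] w) := by
    conv_lhs => rw [← Nat.div_add_mod t a]
    exact hmul _ _
  rw [h3] at ht
  have h4 : rank (M^[t % a] w) ≤ (Finset.range a).sup fun r => rank (M^[r] w) :=
    Finset.le_sup (f := fun r => rank (M^[r] w)) (Finset.mem_range.2 (Nat.mod_lt t ha))
  omega

end Pool.Agent.Lib.MP_b3f678_an
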