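import Pool.Agent.Lib.MP_b3f678_an.Defs
import Pool.Agent.Lib.MP_b3f678_an.Alg

/-!
# The dual action
-/

namespace Pool.Agent.Lib.MP_b3f678_an

open Filter Topology

section charEval
variable {A : Type*} [AddCommGroup A]

lemma charEval_eq_prod (χ : ℤ →₀ AddChar A ℂ) (x : ℤ → A) :
    charEval χ x = χ.prod fun k c => c (x k) := rfl

lemma charEval_add (χ χ' : ℤ →₀ AddChar A ℂ) (x : ℤ → A) :
    charEval (χ + χ') x = charEval χ x * charEval χ' x := by
  classical
  rw [charEval_eq_prod, charEval_eq_prod, charEval_eq_prod]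
  apply Finsupp.prod_add_index'
  · intro k; rfl
  · intro k a b; rfl

lemma addChar_sum (c : AddChar A ℂ) {ι : Type*} (s : Finset ι) (f : ι → A) :
    c (∑ i ∈ s, f i) = ∏ i ∈ s, c (f i) := by
  classical
  induction s using Finset.induction_on with
  | empty => simp
  | insert a s ha ih => rw [Finset.sum_insert ha, AddChar.map_add_eq_mul, ih, Finset.prod_insert ha]

lemma charEval_zero (x : ℤ → A) : charEval (0 : ℤ →₀ AddChar A ℂ) x = 1 := by
  simp [charEval]

lemma charEval_single (k : ℤ) (c : AddChar A ℂ) (x : ℤ → A) :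
    charEval (Finsupp.single k c) x = c (x k) := by
  rw [charEval_eq_prod, Finsupp.prod_single_index]
  rfl

lemma charEval_sum {ι : Type*} (s : Finset ι) (f : ι → (ℤ →₀ AddChar A ℂ)) (x : ℤ → A) :
    charEval (∑ i ∈ s, f i) x = ∏ i ∈ s, charEval (f i) x := by
  classical
  induction s using Finset.induction_on with
  | empty => simp [charEval_zero]
  | insert a s ha ih => rw [Finset.sum_insert ha, charEval_add, ih, Finset.prod_insert ha]

lemma charEval_piSingle (χ : ℤ →₀ AddChar A ℂ) (k : ℤ) (a : A) :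
    charEval χ (Pi.single k a) = χ k a := by
  classical
  induction χ using Finsupp.induction_linear with
  | zero => rw [charEval_zero]; rfl
  | add y z hy hz => rw [charEval_add, hy, hz]; rfl
  | single m c =>
    rw [charEval_single]
    by_cases h : m = k
    · subst h; simp
    · rw [Finsupp.single_eq_of_ne (Ne.symm h), Pi.single_eq_of_ne h, AddChar.map_zero_eq_one]
      rfl

lemma charEval_injective {χ χ' : ℤ →₀ AddChar A ℂ} (h : ∀ x, charEval χ x = charEval χ' x) :
    χ = χ' := by
  ext k
  rw [← charEval_piSingle, h, charEval_piSingle]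

end charEval

variable {A : Type*} [AddCommGroup A] [TopologicalSpace A] [DiscreteTopology A]

/-- The local rule of an abelian cellular automaton. -/
lemma exists_local_rule {F : (ℤ → A) → (ℤ → A)} (hF : IsAbelianCA F) :
    ∃ (I : Finset ℤ) (φ : ℤ → (A →+ A)), ∀ x j, F x j = ∑ i ∈ I, φ i (x (i + j)) := by
  classical
  have hF0 : F 0 = 0 := by
    have := hF.map_add 0 0
    rw [add_zero] at this
    exact left_eq_add.1 this
  let Fh : (ℤ → A) →+ (ℤ → A) := { toFun := F, map_zero' := hF0, map_add' := hF.map_add }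
  have hopen : IsOpen {x : ℤ → A | F x 0 = 0} := by
    have : Continuous fun x : ℤ → A => F x 0 := (continuous_apply 0).comp hF.continuous
    exact (isOpen_discrete ({0} : Set A)).preimage this
  rw [isOpen_pi_iff] at hopen
  obtain ⟨I, u, hu, hI⟩ := hopen 0 (by simp [hF0])
  have hker : ∀ x : ℤ → A, (∀ i ∈ I, x i = 0) → F x 0 = 0 := by
    intro x hx
    apply hI
    intro i hi
    rw [hx i hi]
    exact (hu i hi).2
  let φ : ℤ → (A →+ A) := fun i =>
    (Pi.evalAddMonoidHom (fun _ : ℤ => A) 0).comp (Fh.comp (AddMonoidHom.single (fun _ : ℤ => A) i))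
  have hφ : ∀ i a, φ i a = F (Pi.single i a) 0 := fun i a => rfl
  have h0 : ∀ x : ℤ → A, F x 0 = ∑ i ∈ I, φ i (x i) := by
    intro x
    have h1 : F x 0 = F (∑ i ∈ I, Pi.single i (x i)) 0 := by
      have h2 : F (x - ∑ i ∈ I, Pi.single i (x i)) 0 = 0 := by
        apply hker
        intro i hi
        rw [Pi.sub_apply, Finset.sum_apply, Finset.sum_eq_single i]
        · simp
        · intro j _ hji
          rw [Pi.single_eq_of_ne (Ne.symm hji)]
        · intro h; exact absurd hi h
      have h3 : F (x - ∑ i ∈ I, Pi.single i (x i)) = F x - F (∑ i ∈ I, Pi.single i (x i)) :=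
        map_sub Fh _ _
      rw [h3, Pi.sub_apply, sub_eq_zero] at h2
      exact h2
    rw [h1]
    have h4 : F (∑ i ∈ I, Pi.single i (x i)) = ∑ i ∈ I, F (Pi.single i (x i)) := map_sum Fh _ _
    rw [h4, Finset.sum_apply]
    rfl
  -- translates
  let sh : ℤ → (ℤ → A) → (ℤ → A) := fun j x => fun i => x (i + j)
  have hsh : ∀ (n : ℕ) x, F (sh n x) = sh n (F x) := by
    intro n
    induction n with
    | zero => intro x; simp [sh]
    | succ n ih =>
      intro x
      have h1 : sh (n + 1 : ℕ) x = shift (sh n x) := by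
        funext i; simp only [sh, shift]; congr 1; push_cast; ring
      have h2 : sh (n + 1 : ℕ) (F x) = shift (sh n (F x)) := by
        funext i; simp only [sh, shift]; congr 1; push_cast; ring
      rw [h1, hF.shift_comm, ih, h2]
  have hshz : ∀ (j : ℤ) x, F (sh j x) = sh j (F x) := by
    intro j x
    obtain ⟨n, rfl | rfl⟩ := j.eq_nat_or_neg
    · exact hsh n x
    · have h1 : sh n (sh (-n) x) = x := by
        funext i; simp [sh]
      have h2 := hsh n (sh (-(n : ℤ)) x)
      rw [h1] at h2
      rw [h2]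
      funext i
      simp [sh]
  refine ⟨I, φ, fun x j => ?_⟩
  have h5 : F x j = F (sh j x) 0 := by
    rw [hshz]
    simp [sh]
  rw [h5, h0]

/-- Existence of the dual endomorphism. -/
lemma exists_dual {F : (ℤ → A) → (ℤ → A)} (hF : IsAbelianCA F) :
    ∃ M : (ℤ →₀ AddChar A ℂ) →+ (ℤ →₀ AddChar A ℂ), (∀ n z, M (tr n z) = tr n (M z)) ∧
      ∀ χ x, charEval (M χ) x = charEval χ (F x) := by
  classical
  obtain ⟨I, φ, h⟩ := exists_local_rule hF
  let φs : ℤ → (AddChar A ℂ →+ AddChar A ℂ) := fun i =>
    { toFun := fun c => c.compAddMonoidHom (φ i)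
      map_zero' := by ext; rfl
      map_add' := by intro a b; ext; rfl }
  let Mi : ℤ → ((ℤ →₀ AddChar A ℂ) →+ (ℤ →₀ AddChar A ℂ)) := fun i =>
    { toFun := fun χ => tr i (Finsupp.mapRange.addMonoidHom (φs i) χ)
      map_zero' := by rw [map_zero, tr_zero]
      map_add' := by intro a b; rw [map_add, tr_add] }
  have hMi : ∀ i χ, Mi i χ = tr i (Finsupp.mapRange (φs i) (map_zero _) χ) := fun i χ => rfl
  let M : (ℤ →₀ AddChar A ℂ) →+ (ℤ →₀ AddChar A ℂ) :=
    { toFun := fun χ => ∑ i ∈ I, Mi i χ
      map_zero' := by simp only [map_zero, Finset.sum_const_zero]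
      map_add' := by
        intro a b
        simp only [map_add, Finset.sum_add_distrib] }
  have hMs : ∀ χ, M χ = ∑ i ∈ I, Mi i χ := fun χ => rfl
  refine ⟨M, ?_, ?_⟩
  · intro n z
    rw [hMs, hMs]
    have : tr n (∑ i ∈ I, Mi i z) = ∑ i ∈ I, tr n (Mi i z) :=
      map_sum (Finsupp.mapDomain.addMonoidHom (fun m : ℤ => m + n)) _ _
    rw [this]
    refine Finset.sum_congr rfl fun i _ => ?_
    rw [hMi, hMi, ← tr_mapRange, tr_tr, tr_tr, add_comm]
  · intro χ x
    induction χ using Finsupp.induction_linear with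
    | zero => rw [map_zero, charEval_zero, charEval_zero]
    | add y z hy hz => rw [map_add, charEval_add, hy, hz, charEval_add]
    | single k c =>
      rw [hMs, charEval_sum, charEval_single, h, addChar_sum]
      refine Finset.prod_congr rfl fun i _ => ?_
      rw [hMi, Finsupp.mapRange_single, tr_single, charEval_single]
      rw [add_comm i k]
      rfl

end Pool.Agent.Lib.MP_b3f678_an
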