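import Pool.Agent.Lib.MP_b3f678_an.Meas

namespace Pool.Agent.Lib.MP_b3f678_an

open Filter Topology MeasureTheory ProbabilityTheory ComplexConjugate

variable {A : Type*} [AddCommGroup A] [Finite A] [TopologicalSpace A] [DiscreteTopology A]

omit [Finite A] in
lemma continuous_charEval (χ : ℤ →₀ AddChar A ℂ) : Continuous (charEval χ) := by
  unfold charEval
  refine continuous_finsetProd _ fun k _ => ?_
  exact (continuous_of_discreteTopology).comp (continuous_apply k)

/-- Characters as continuous functions. -/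
noncomputable def chC (χ : ℤ →₀ AddChar A ℂ) : C(ℤ → A, ℂ) := ⟨charEval χ, continuous_charEval χ⟩

omit [TopologicalSpace A] [DiscreteTopology A] in
lemma exists_charEval_conj (χ : ℤ →₀ AddChar A ℂ) :
    ∃ χ' : ℤ →₀ AddChar A ℂ, ∀ x, charEval χ' x = conj (charEval χ x) := by
  induction χ using Finsupp.induction_linear with
  | zero => exact ⟨0, fun x => by rw [charEval_zero, map_one]⟩
  | add y z hy hz =>
    obtain ⟨y', hy'⟩ := hy
    obtain ⟨z', hz'⟩ := hz
    exact ⟨y' + z', fun x => by rw [charEval_add, hy', hz', charEval_add, map_mul]⟩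
  | single k c =>
    refine ⟨Finsupp.single k (-c), fun x => ?_⟩
    rw [charEval_single, charEval_single, AddChar.neg_apply, AddChar.map_neg_eq_conj]

variable (A) in
/-- The algebra spanned by the characters. -/
noncomputable def charAlg : StarSubalgebra ℂ C(ℤ → A, ℂ) where
  toSubalgebra := Algebra.adjoin ℂ (Set.range (chC (A := A)))
  star_mem' := by
    change Algebra.adjoin ℂ (Set.range (chC (A := A))) ≤
      star (Algebra.adjoin ℂ (Set.range (chC (A := A))))
    refine Algebra.adjoin_le ?_
    rintro - ⟨χ, rfl⟩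
    obtain ⟨χ', hχ'⟩ := exists_charEval_conj χ
    refine Algebra.subset_adjoin ⟨χ', ?_⟩
    ext x
    exact hχ' x

lemma charAlg_coe :
    Subalgebra.toSubmodule (charAlg A).toSubalgebra = Submodule.span ℂ (Set.range (chC (A := A))) := by
  apply Algebra.adjoin_eq_span_of_subset
  refine Set.Subset.trans ?_ Submodule.subset_span
  intro x hx
  induction hx using Submonoid.closure_induction with
  | mem x hx => exact hx
  | one => exact ⟨0, by ext x; exact charEval_zero x⟩
  | mul x y _ _ hx hy =>
    obtain ⟨χ, rfl⟩ := hx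
    obtain ⟨χ', rfl⟩ := hy
    exact ⟨χ + χ', by ext x; exact charEval_add χ χ' x⟩

lemma charAlg_separates : (charAlg A).SeparatesPoints := by
  intro x y hxy
  obtain ⟨k, hk⟩ := Function.ne_iff.1 hxy
  obtain ⟨c, hc⟩ := AddChar.exists_apply_ne_zero.2 (sub_ne_zero.2 hk)
  refine ⟨chC (Finsupp.single k c), ⟨chC (Finsupp.single k c),
    Algebra.subset_adjoin ⟨_, rfl⟩, rfl⟩, ?_⟩
  show charEval _ x ≠ charEval _ y
  rw [charEval_single, charEval_single]
  intro h
  apply hc
  rw [AddChar.map_sub_eq_div, h, div_self]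
  exact (AddChar.val_isUnit c (y k)).ne_zero

lemma charAlg_closure : (charAlg A).topologicalClosure = ⊤ :=
  ContinuousMap.starSubalgebra_topologicalClosure_eq_top_of_separatesPoints _ charAlg_separates

variable [MeasurableSpace A] [DiscreteMeasurableSpace A]

omit [TopologicalSpace A] [DiscreteTopology A] in
instance : IsProbabilityMeasure (uniformBernoulli A) := by
  unfold uniformBernoulli
  infer_instance

lemma tendsto_of_fourier {l : Filter ℕ} (ρ : ℕ → Measure (ℤ → A))
    (hρ : ∀ t, IsProbabilityMeasure (ρ t)) (σ : Measure (ℤ → A)) [IsProbabilityMeasure σ]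
    (h : ∀ χ, Tendsto (fun t => fourierCoef (ρ t) χ) l (𝓝 (fourierCoef σ χ)))
    (f : C(ℤ → A, ℝ)) :
    Tendsto (fun t => ∫ x, f x ∂(ρ t)) l (𝓝 (∫ x, f x ∂σ)) := by
  have hint : ∀ (τ : Measure (ℤ → A)) (_ : IsProbabilityMeasure τ) (g : C(ℤ → A, ℂ)),
      Integrable (fun x => g x) τ := by
    intro τ _ g
    exact (BoundedContinuousFunction.mkOfCompact g).integrable τ
  -- convergence on the span
  have hspan : ∀ g ∈ Submodule.span ℂ (Set.range (chC (A := A))),
      Tendsto (fun t => ∫ x, g x ∂(ρ t)) l (𝓝 (∫ x, g x ∂σ)) := by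
    intro g hg
    induction hg using Submodule.span_induction with
    | mem g hg =>
      obtain ⟨χ, rfl⟩ := hg
      exact h χ
    | zero => simpa using tendsto_const_nhds
    | add a b _ _ ha hb =>
      have h1 : ∀ (τ : Measure (ℤ → A)) (_ : IsProbabilityMeasure τ),
          ∫ x, (a + b) x ∂τ = ∫ x, a x ∂τ + ∫ x, b x ∂τ := by
        intro τ hτ
        exact integral_add (hint τ hτ a) (hint τ hτ b)
      rw [h1 σ inferInstance]
      simp_rw [fun t => h1 (ρ t) (hρ t)]
      exact ha.add hb
    | smul c a _ ha =>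
      have h1 : ∀ (τ : Measure (ℤ → A)), ∫ x, (c • a) x ∂τ = c * ∫ x, a x ∂τ := by
        intro τ
        exact integral_const_mul c _
      rw [h1 σ]
      simp_rw [h1]
      exact ha.const_mul c
  have hC : ∀ g : C(ℤ → A, ℂ), Tendsto (fun t => ∫ x, g x ∂(ρ t)) l (𝓝 (∫ x, g x ∂σ)) := by
    intro g
    have hg : g ∈ closure (charAlg A : Set C(ℤ → A, ℂ)) := by
      have : g ∈ (charAlg A).topologicalClosure := by rw [charAlg_closure]; trivial
      exact this
    rw [Metric.tendsto_nhds]
    intro ε hε
    obtain ⟨g', hg', hgg'⟩ := Metric.mem_closure_iff.1 hg (ε / 3) (by positivity)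
    have hg's : g' ∈ Submodule.span ℂ (Set.range (chC (A := A))) := by
      rw [← charAlg_coe]
      exact hg'
    have h3 := (Metric.tendsto_nhds.1 (hspan g' hg's)) (ε / 3) (by positivity)
    refine h3.mono fun t ht => ?_
    have hb : ∀ (τ : Measure (ℤ → A)) (_ : IsProbabilityMeasure τ),
        dist (∫ x, g x ∂τ) (∫ x, g' x ∂τ) ≤ ε / 3 := by
      intro τ hτ
      rw [dist_eq_norm, ← integral_sub (hint τ hτ g) (hint τ hτ g')]
      have := norm_integral_le_of_norm_le_const (μ := τ) (f := fun x => g x - g' x) (C := ε / 3)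
        (Eventually.of_forall fun x => by
          rw [← dist_eq_norm]
          exact (ContinuousMap.dist_apply_le_dist x).trans hgg'.le)
      simpa using this
    calc dist (∫ x, g x ∂(ρ t)) (∫ x, g x ∂σ)
        ≤ dist (∫ x, g x ∂(ρ t)) (∫ x, g' x ∂(ρ t)) + dist (∫ x, g' x ∂(ρ t)) (∫ x, g' x ∂σ)
          + dist (∫ x, g' x ∂σ) (∫ x, g x ∂σ) := dist_triangle4 _ _ _ _
      _ < ε / 3 + ε / 3 + ε / 3 := by
        have e1 := hb (ρ t) (hρ t)
        have e2 := hb σ inferInstance
        rw [dist_comm] at e2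
        linarith
      _ = ε := by ring
  -- real functions
  let g : C(ℤ → A, ℂ) := ⟨fun x => (f x : ℂ), Complex.continuous_ofReal.comp f.continuous⟩
  have h1 := hC g
  have h2 : ∀ τ : Measure (ℤ → A), ∫ x, g x ∂τ = ((∫ x, f x ∂τ : ℝ) : ℂ) := fun τ =>
    integral_ofReal
  rw [h2] at h1
  simp_rw [h2] at h1
  have h3 := (Complex.continuous_re.tendsto _).comp h1
  simpa [Function.comp_def] using h3

/-- Sets of lower density one are infinite. -/
lemma frequently_of_lowerDensityOne {D : Set ℕ} (h : LowerDensityOne D) :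
    (atTop ⊓ 𝓟 D).NeBot := by
  rw [← Filter.frequently_mem_iff_neBot]
  by_contra hcon
  rw [Filter.not_frequently] at hcon
  obtain ⟨N, hN⟩ := Filter.eventually_atTop.1 hcon
  have hsub : ∀ n, (D ∩ Set.Icc 0 n).ncard ≤ N := by
    intro n
    have : D ∩ Set.Icc 0 n ⊆ Set.Iio N := by
      rintro m ⟨hm, -⟩
      by_contra hmN
      exact hN m (not_lt.1 hmN) hm
    calc (D ∩ Set.Icc 0 n).ncard ≤ (Set.Iio N).ncard := Set.ncard_le_ncard this (Set.finite_Iio N)
      _ = N := by
        rw [Set.ncard_eq_toFinset_card']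
        simp
  have h0 : Tendsto (fun n : ℕ => ((D ∩ Set.Icc 0 n).ncard : ℝ) / n) atTop (𝓝 0) := by
    refine squeeze_zero (g := fun n : ℕ => (N : ℝ) / n) (fun n => by positivity) (fun n => ?_)
      (tendsto_const_div_atTop_nhds_zero_nat _)
    gcongr
    exact_mod_cast hsub n
  rw [LowerDensityOne, h0.liminf_eq] at h
  exact zero_ne_one h

lemma lowerDensityOne_univ : LowerDensityOne Set.univ := by
  have h0 : Tendsto (fun n : ℕ => ((Set.univ ∩ Set.Icc 0 n : Set ℕ).ncard : ℝ) / n) atTop (𝓝 1) := by
    have h1 : Tendsto (fun n : ℕ => (1 : ℝ) + 1 / n) atTop (𝓝 (1 + 0)) :=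
      tendsto_const_nhds.add (tendsto_const_div_atTop_nhds_zero_nat 1)
    rw [add_zero] at h1
    refine h1.congr' ?_
    filter_upwards [Filter.eventually_gt_atTop 0] with n hn
    have hn' : (n : ℝ) ≠ 0 := by exact_mod_cast hn.ne'
    have h2 : (Set.univ ∩ Set.Icc 0 n : Set ℕ).ncard = n + 1 := by
      rw [Set.univ_inter, Set.ncard_eq_toFinset_card']
      simp
    rw [h2]
    push_cast
    field_simp
  rw [LowerDensityOne, h0.liminf_eq]

theorem strongly_iff_density {F : (ℤ → A) → (ℤ → A)} (hF : IsAbelianCA F)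
    (hb : Function.Bijective F) : StronglyRandomizing F ↔ RandomizingInDensity F := by
  constructor
  · intro h μ hμ hm
    refine ⟨Set.univ, lowerDensityOne_univ, ?_⟩
    rw [principal_univ, inf_top_eq]
    exact h μ hμ hm
  intro hden
  obtain ⟨M, hM, hMne, hdich⟩ := dichotomy hF hb
  have hFt : ∀ t : ℕ, Continuous (F^[t]) := fun t => hF.continuous.iterate t
  have hcoef : ∀ (μ : Measure (ℤ → A)) (t : ℕ) χ,
      fourierCoef (μ.map F^[t]) χ = fourierCoef μ (M^[t] χ) := by
    intro μ t χ
    rw [fourierCoef, integral_map (hFt t).measurable.aemeasurable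
      (continuous_charEval χ).aestronglyMeasurable]
    simp_rw [fourierCoef, hM]
  rcases hdich with hall | ⟨w, hw, R, hR⟩
  · intro μ hμ hm f
    refine tendsto_of_fourier (fun t => μ.map F^[t])
      (fun t => Measure.isProbabilityMeasure_map (hFt t).measurable.aemeasurable)
      (uniformBernoulli A) ?_ f
    intro χ
    simp_rw [hcoef]
    by_cases hχ : χ = 0
    · subst hχ
      have h0 : ∀ t : ℕ, M^[t] 0 = 0 := by
        intro t
        induction t with
        | zero => rfl
        | succ t ih => rw [Function.iterate_succ_apply', ih, map_zero]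
      have h1 : ∀ (τ : Measure (ℤ → A)) (_ : IsProbabilityMeasure τ), fourierCoef τ 0 = 1 := by
        intro τ hτ
        simp [fourierCoef, charEval_zero]
      simp_rw [h0]
      rw [h1 μ hμ, h1 (uniformBernoulli A) inferInstance]
      exact tendsto_const_nhds
    · rw [fourierCoef_uniform χ hχ, Metric.tendsto_nhds]
      intro ε hε
      obtain ⟨R, hR⟩ := hm ε hε
      refine (hall χ hχ R).mono fun t ht => ?_
      rw [dist_zero_right]
      exact hR _ ht
  · exfalso
    obtain ⟨D, hD, hconv⟩ := hden (Measure.infinitePi fun _ : ℤ => halfMeasure A) inferInstance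
      harmonicallyMixing_half
    have hne := frequently_of_lowerDensityOne hD
    let f : C(ℤ → A, ℝ) := ⟨fun x => (charEval w x).re,
      Complex.continuous_re.comp (continuous_charEval w)⟩
    have h1 := hconv f
    have hint : ∀ (τ : Measure (ℤ → A)) (_ : IsProbabilityMeasure τ),
        ∫ x, f x ∂τ = (fourierCoef τ w).re := by
      intro τ hτ
      have hi : Integrable (fun x => charEval w x) τ :=
        (BoundedContinuousFunction.mkOfCompact (chC w)).integrable τ
      exact integral_re hi
    rw [hint (uniformBernoulli A) inferInstance, fourierCoef_uniform w hw, Complex.zero_re] at h1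
    have h2 : ∀ t : ℕ, ((1 : ℝ) / 2) ^ R ≤
        ∫ x, f x ∂((Measure.infinitePi fun _ : ℤ => halfMeasure A).map F^[t]) := by
      intro t
      rw [hint _ (Measure.isProbabilityMeasure_map (hFt t).measurable.aemeasurable), hcoef,
        fourierCoef_half]
      have h3 : (((1 : ℂ) / 2) ^ rank (M^[t] w)).re = ((1 : ℝ) / 2) ^ rank (M^[t] w) := by
        have : ((1 : ℂ) / 2) = (((1 : ℝ) / 2 : ℝ) : ℂ) := by push_cast; rfl
        rw [this, ← Complex.ofReal_pow, Complex.ofReal_re]
      rw [h3]
      exact pow_le_pow_of_le_one (by norm_num) (by norm_num) (hR t)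
    have h4 := ge_of_tendsto h1 (Eventually.of_forall h2)
    have h5 : (0 : ℝ) < (1 / 2) ^ R := by positivity
    linarith

end Pool.Agent.Lib.MP_b3f678_an
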