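import Pool.Agent.Lib.MP_b3f678_an.Core2

namespace Pool.Agent.Lib.MP_b3f678_an

open WithZero LaurentPolynomial
open scoped LaurentSeries

variable (k : Type*) [Field k]

lemma single_zpow' (n : ℤ) : (HahnSeries.single (1 : ℤ) (1 : k) : k⸨X⸩) ^ n =
    HahnSeries.single n (1 : k) := by
  obtain m | m := n
  · simp [HahnSeries.single_pow]
  · rw [zpow_negSucc, HahnSeries.single_pow, HahnSeries.inv_single, Int.negSucc_eq]
    simp

/-- The unit `X` of the Laurent series field. -/
noncomputable def unitX : (k⸨X⸩)ˣ :=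
  Units.mk0 (HahnSeries.single (1 : ℤ) (1 : k)) (by simp)

lemma unitX_zpow (n : ℤ) : ((unitX k ^ n : (k⸨X⸩)ˣ) : k⸨X⸩) = HahnSeries.single n (1 : k) := by
  rw [Units.val_zpow_eq_zpow_val, unitX, Units.val_mk0, single_zpow']

/-- Laurent polynomials inside Laurent series. -/
noncomputable def iota0 : k[T;T⁻¹] →+* k⸨X⸩ := LaurentPolynomial.eval₂ HahnSeries.C (unitX k)

lemma iota0_coeff (r : k[T;T⁻¹]) (n : ℤ) : (iota0 k r).coeff n = r.coeff n := by
  induction r using LaurentPolynomial.induction_on' with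
  | add p q hp hq => rw [map_add, HahnSeries.coeff_add, hp, hq]; rfl
  | C_mul_T m a =>
    rw [iota0, eval₂_C_mul_T, unitX_zpow, HahnSeries.C_mul_eq_smul, HahnSeries.coeff_smul]
    rw [← single_eq_C_mul_T, AddMonoidAlgebra.coeff_single, HahnSeries.coeff_single,
      Finsupp.single_apply]
    by_cases h : m = n
    · simp [h]
    · simp [h, Ne.symm h]

/-- The embedding at infinity. -/
noncomputable def iota1 : k[T;T⁻¹] →+* k⸨X⸩ :=
  (iota0 k).comp (LaurentPolynomial.invert (R := k)).toRingEquiv.toRingHom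

lemma iota1_coeff (r : k[T;T⁻¹]) (n : ℤ) : (iota1 k r).coeff n = r.coeff (-n) := by
  rw [← LaurentPolynomial.invert_apply, ← iota0_coeff]
  rfl

lemma iota0_injective : Function.Injective (iota0 k) := by
  intro a b h
  refine LaurentPolynomial.ext fun n => ?_
  rw [← iota0_coeff, ← iota0_coeff, h]

lemma iota1_injective : Function.Injective (iota1 k) := by
  intro a b h
  refine LaurentPolynomial.ext fun n => ?_
  have := congrArg (fun f => HahnSeries.coeff f (-n)) h
  simpa [iota1_coeff] using this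

/-- The field of rational functions. -/
abbrev KK := FractionRing (k[T;T⁻¹])

/-- valuation at zero -/
noncomputable def v0 : Valuation (KK k) ℤᵐ⁰ :=
  (Valued.v : Valuation k⸨X⸩ ℤᵐ⁰).comap (IsFractionRing.lift (iota0_injective k))

/-- valuation at infinity -/
noncomputable def v1 : Valuation (KK k) ℤᵐ⁰ :=
  (Valued.v : Valuation k⸨X⸩ ℤᵐ⁰).comap (IsFractionRing.lift (iota1_injective k))

lemma v0_algebraMap (r : k[T;T⁻¹]) : v0 k (algebraMap _ _ r) = Valued.v (iota0 k r) := by
  rw [v0, Valuation.comap_apply, IsFractionRing.lift_algebraMap]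

lemma v1_algebraMap (r : k[T;T⁻¹]) : v1 k (algebraMap _ _ r) = Valued.v (iota1 k r) := by
  rw [v1, Valuation.comap_apply, IsFractionRing.lift_algebraMap]

lemma v0_T : v0 k (algebraMap k[T;T⁻¹] _ (T 1)) = exp (-1) := by
  rw [v0_algebraMap, iota0, eval₂_T, unitX_zpow, LaurentSeries.valuation_single_zpow]

lemma v1_T : v1 k (algebraMap k[T;T⁻¹] _ (T 1)) = exp 1 := by
  rw [v1_algebraMap]
  have : iota1 k (T 1) = iota0 k (T (-1)) := by
    show iota0 k (invert (T 1)) = _
    rw [invert_T]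
  rw [this, iota0, eval₂_T, unitX_zpow, LaurentSeries.valuation_single_zpow, neg_neg]

lemma one_le_v0_mul_v1 (r : k[T;T⁻¹]) (hr : r ≠ 0) :
    1 ≤ v0 k (algebraMap _ _ r) * v1 k (algebraMap _ _ r) := by
  obtain ⟨n, hn⟩ : ∃ n, r.coeff n ≠ 0 := by
    by_contra h
    push Not at h
    exact hr (LaurentPolynomial.ext fun n => by simpa using h n)
  have h0 : exp (-n) ≤ v0 k (algebraMap _ _ r) := by
    by_contra hlt
    rw [not_le] at hlt
    have h1 : (Valued.v (iota0 k r) : ℤᵐ⁰) ≤ exp (-(n + 1)) := by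
      rw [← v0_algebraMap]
      by_cases h0 : v0 k (algebraMap _ _ r) = 0
      · rw [h0]; exact zero_le
      · rw [← exp_log h0] at hlt ⊢
        rw [exp_lt_exp] at hlt
        rw [exp_le_exp]
        omega
    have := LaurentSeries.coeff_zero_of_lt_valuation k h1 (lt_add_one n)
    rw [iota0_coeff] at this
    exact hn this
  have h1 : exp n ≤ v1 k (algebraMap _ _ r) := by
    by_contra hlt
    rw [not_le] at hlt
    have h1 : (Valued.v (iota1 k r) : ℤᵐ⁰) ≤ exp (-(-n + 1)) := by
      rw [← v1_algebraMap]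
      by_cases h0 : v1 k (algebraMap _ _ r) = 0
      · rw [h0]; exact zero_le
      · rw [← exp_log h0] at hlt ⊢
        rw [exp_lt_exp] at hlt
        rw [exp_le_exp]
        omega
    have := LaurentSeries.coeff_zero_of_lt_valuation k h1 (lt_add_one (-n))
    rw [iota1_coeff, neg_neg] at this
    exact hn this
  calc (1 : ℤᵐ⁰) = exp (-n) * exp n := by rw [← exp_add]; simp
    _ ≤ _ := mul_le_mul' h0 h1

instance : IsIntegrallyClosed (k[T;T⁻¹]) :=
  isIntegrallyClosed_of_isLocalization (R := Polynomial k) _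
    (Submonoid.powers (Polynomial.X : Polynomial k))
    (powers_le_nonZeroDivisors_of_noZeroDivisors Polynomial.X_ne_zero)

instance : IsNoetherianRing (k[T;T⁻¹]) :=
  IsLocalization.isNoetherianRing (Submonoid.powers (Polynomial.X : Polynomial k)) _ inferInstance

/-- Norms of units have opposite valuations. -/
lemma v0_mul_v1_norm {E : Type*} [Field E] [Algebra (KK k) E] [Algebra k[T;T⁻¹] E]
    [IsScalarTower k[T;T⁻¹] (KK k) E] [FiniteDimensional (KK k) E]
    (l : E) (hl : l ≠ 0) (h1 : IsIntegral k[T;T⁻¹] l) (h2 : IsIntegral k[T;T⁻¹] l⁻¹) :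
    v0 k (Algebra.norm (KK k) l) * v1 k (Algebra.norm (KK k) l) = 1 := by
  have i1 := Algebra.isIntegral_norm (KK k) h1
  have i2 := Algebra.isIntegral_norm (KK k) h2
  obtain ⟨a, ha⟩ := IsIntegrallyClosed.isIntegral_iff.1 i1
  obtain ⟨b, hb⟩ := IsIntegrallyClosed.isIntegral_iff.1 i2
  have hab : Algebra.norm (KK k) l * Algebra.norm (KK k) l⁻¹ = 1 := by
    rw [← map_mul, mul_inv_cancel₀ hl, map_one]
  have ha0 : a ≠ 0 := by
    rintro rfl
    rw [← ha, map_zero, zero_mul] at hab
    exact zero_ne_one hab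
  have hb0 : b ≠ 0 := by
    rintro rfl
    rw [← hb, map_zero, mul_zero] at hab
    exact zero_ne_one hab
  have ja := one_le_v0_mul_v1 k a ha0
  have jb := one_le_v0_mul_v1 k b hb0
  rw [ha] at ja
  rw [hb] at jb
  have e0 := congrArg (v0 k) hab
  have e1 := congrArg (v1 k) hab
  rw [map_mul, map_one] at e0 e1
  have e2 : (v0 k (Algebra.norm (KK k) l) * v1 k (Algebra.norm (KK k) l)) *
      (v0 k (Algebra.norm (KK k) l⁻¹) * v1 k (Algebra.norm (KK k) l⁻¹)) = 1 := by
    rw [mul_mul_mul_comm, e0, e1, one_mul]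
  refine le_antisymm ?_ ja
  calc _ ≤ _ := le_mul_of_one_le_right' jb
    _ = 1 := e2

end Pool.Agent.Lib.MP_b3f678_an
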