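import Pool.Agent.Lib.MP_b3f678_an.Laurent

/-!
# Finitely supported functions `ℤ →₀ W` inside `K ⊗ W`
-/

namespace Pool.Agent.Lib.MP_b3f678_an

open LaurentPolynomial TensorProduct

/-- Translation of finitely supported functions. -/
noncomputable def tr {B : Type*} [AddCommMonoid B] (n : ℤ) (z : ℤ →₀ B) : ℤ →₀ B :=
  Finsupp.mapDomain (fun m => m + n) z

section tr
variable {B : Type*} [AddCommMonoid B]

lemma tr_add (n : ℤ) (y z : ℤ →₀ B) : tr n (y + z) = tr n y + tr n z :=
  Finsupp.mapDomain_add

lemma tr_zero (n : ℤ) : tr n (0 : ℤ →₀ B) = 0 := Finsupp.mapDomain_zero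

lemma tr_single (n m : ℤ) (b : B) : tr n (Finsupp.single m b) = Finsupp.single (m + n) b :=
  Finsupp.mapDomain_single

lemma tr_apply (n m : ℤ) (z : ℤ →₀ B) : tr n z m = z (m - n) := by
  have h : Function.Injective (fun m : ℤ => m + n) := add_left_injective n
  have := Finsupp.mapDomain_apply h z (m - n)
  simpa [tr] using this

lemma tr_tr (a b : ℤ) (z : ℤ →₀ B) : tr a (tr b z) = tr (a + b) z := by
  ext m
  rw [tr_apply, tr_apply, tr_apply]
  congr 1
  ring

lemma tr_card (n : ℤ) (z : ℤ →₀ B) : (tr n z).support.card = z.support.card := by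
  classical
  have h : Function.Injective (fun m : ℤ => m + n) := add_left_injective n
  rw [tr, Finsupp.mapDomain_support_of_injective h, Finset.card_image_of_injective _ h]

lemma tr_smul {k : Type*} [Semiring k] [Module k B] (c : k) (n : ℤ) (z : ℤ →₀ B) :
    tr n (c • z) = c • tr n z := by
  ext m
  rw [tr_apply, Finsupp.smul_apply, Finsupp.smul_apply, tr_apply]

end tr

variable (k : Type*) [Field k] (W : Type*) [AddCommGroup W] [Module k W]

/-- The ambient vector space. -/
abbrev VV := KK k ⊗[k] W

/-- The embedding. -/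
noncomputable def JJ : (ℤ →₀ W) →ₗ[k] VV k W :=
  Finsupp.lsum k fun n => TensorProduct.mk k (KK k) W (algebraMap k[T;T⁻¹] (KK k) (T n))

variable {k W}

lemma JJ_single (n : ℤ) (w : W) :
    JJ k W (Finsupp.single n w) = algebraMap k[T;T⁻¹] (KK k) (T n) ⊗ₜ w := by
  simp [JJ]

lemma JJ_tr (n : ℤ) (z : ℤ →₀ W) : JJ k W (tr n z) = algebraMap k[T;T⁻¹] (KK k) (T n) • JJ k W z := by
  induction z using Finsupp.induction_linear with
  | zero => simp [tr_zero]
  | add y z hy hz => rw [tr_add, map_add, hy, hz, map_add, smul_add]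
  | single m w =>
    rw [tr_single, JJ_single, JJ_single, TensorProduct.smul_tmul', T_add, map_mul, smul_eq_mul,
      mul_comm]

/-- Every multiple of an element of the image is in the image. -/
lemma smul_JJ (r : k[T;T⁻¹]) (z : ℤ →₀ W) : ∃ y, r • JJ k W z = JJ k W y := by
  induction r using LaurentPolynomial.induction_on' with
  | add p q hp hq =>
    obtain ⟨a, ha⟩ := hp
    obtain ⟨b, hb⟩ := hq
    exact ⟨a + b, by rw [add_smul, ha, hb, map_add]⟩
  | C_mul_T n a =>
    refine ⟨a • tr n z, ?_⟩
    rw [map_smul, JJ_tr, mul_smul, ← algebraMap_smul (KK k) (T n : k[T;T⁻¹]) (JJ k W z)]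
    rw [LaurentPolynomial.C_eq_algebraMap, algebraMap_smul]

lemma JJ_injective [Module.Finite k W] : Function.Injective (JJ k W) := by
  rw [injective_iff_map_eq_zero]
  intro z hz
  ext m
  rw [Finsupp.zero_apply, ← Module.forall_dual_apply_eq_zero_iff k]
  intro f
  -- the coordinate functional
  have key : ∀ y : ℤ →₀ W, (Module.Dual.baseChange (KK k) f) (JJ k W y) =
      algebraMap k[T;T⁻¹] (KK k) (AddMonoidAlgebra.ofCoeff (Finsupp.mapRange f (map_zero f) y)) := by
    intro y
    induction y using Finsupp.induction_linear with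
    | zero => simp
    | add a b ha hb =>
      rw [map_add, map_add, ha, hb, ← map_add]
      congr 1
      refine LaurentPolynomial.ext fun n => ?_
      simp [Finsupp.mapRange_apply]
    | single n w =>
      rw [JJ_single, Module.Dual.baseChange_apply_tmul]
      rw [Algebra.smul_def, IsScalarTower.algebraMap_apply k k[T;T⁻¹] (KK k), ← map_mul]
      congr 1
      rw [← LaurentPolynomial.C_eq_algebraMap, ← LaurentPolynomial.single_eq_C_mul_T]
      refine LaurentPolynomial.ext fun m => ?_
      rw [AddMonoidAlgebra.coeff_single, Finsupp.mapRange_single]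
  have h1 := key z
  rw [hz, map_zero] at h1
  have h2 : (AddMonoidAlgebra.ofCoeff (Finsupp.mapRange f (map_zero f) z) : k[T;T⁻¹]) = 0 := by
    apply IsFractionRing.injective k[T;T⁻¹] (KK k)
    rw [← h1, map_zero]
  have h3 := congrArg (fun r : k[T;T⁻¹] => r.coeff m) h2
  simpa using h3

end Pool.Agent.Lib.MP_b3f678_an
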