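import Pool.Agent.Lib.MP_b3f678_an.Lin

namespace Pool.Agent.Lib.MP_b3f678_an

open LaurentPolynomial TensorProduct Polynomial

variable {k : Type*} [Field k] {W : Type*} [AddCommGroup W] [Module k W]

/-- Clearing denominators. -/
lemma exists_smul_eq_JJ (y : VV k W) : ∃ r : k[T;T⁻¹], r ≠ 0 ∧ ∃ z, r • y = JJ k W z := by
  induction y using TensorProduct.induction_on with
  | zero => exact ⟨1, one_ne_zero, 0, by simp⟩
  | tmul c w =>
    obtain ⟨⟨a, b⟩, hb⟩ := IsLocalization.surj (nonZeroDivisors k[T;T⁻¹]) c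
    refine ⟨b, nonZeroDivisors.ne_zero b.2, ?_⟩
    obtain ⟨z, hz⟩ := smul_JJ a (Finsupp.single (0 : ℤ) w)
    refine ⟨z, ?_⟩
    rw [← hz, JJ_single, T_zero, map_one]
    rw [← algebraMap_smul (KK k) (b : k[T;T⁻¹]), ← algebraMap_smul (KK k) (a : k[T;T⁻¹]),
      TensorProduct.smul_tmul', TensorProduct.smul_tmul', smul_eq_mul, smul_eq_mul, mul_one,
      mul_comm, hb]
  | add x y hx hy =>
    obtain ⟨r, hr, a, ha⟩ := hx
    obtain ⟨s, hs, b, hb⟩ := hy
    obtain ⟨a', ha'⟩ := smul_JJ s a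
    obtain ⟨b', hb'⟩ := smul_JJ r b
    refine ⟨r * s, mul_ne_zero hr hs, a' + b', ?_⟩
    rw [map_add, ← ha', ← hb', ← ha, ← hb, smul_add, mul_comm r s, mul_smul, mul_comm s r,
      mul_smul]

/-- The extension of a translation-commuting map. -/
noncomputable def MK (M : (ℤ →₀ W) →ₗ[k] (ℤ →₀ W)) : VV k W →ₗ[KK k] VV k W :=
  LinearMap.liftBaseChange (KK k) ((JJ k W) ∘ₗ M ∘ₗ (Finsupp.lsingle 0))

lemma MK_JJ (M : (ℤ →₀ W) →ₗ[k] (ℤ →₀ W)) (hM : ∀ n z, M (tr n z) = tr n (M z))
    (z : ℤ →₀ W) : MK M (JJ k W z) = JJ k W (M z) := by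
  induction z using Finsupp.induction_linear with
  | zero => simp
  | add y z hy hz => simp only [map_add, hy, hz]
  | single n w =>
    rw [JJ_single, MK, LinearMap.liftBaseChange_tmul]
    have : Finsupp.single n w = tr n (Finsupp.single 0 w) := by rw [tr_single, zero_add]
    rw [this, hM, JJ_tr]
    rfl

lemma MK_pow_JJ (M : (ℤ →₀ W) →ₗ[k] (ℤ →₀ W)) (hM : ∀ n z, M (tr n z) = tr n (M z))
    (t : ℕ) (z : ℤ →₀ W) : ((MK M) ^ t) (JJ k W z) = JJ k W (M^[t] z) := by
  induction t with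
  | zero => simp
  | succ t ih =>
    rw [pow_succ', Module.End.mul_apply, ih, MK_JJ M hM, Function.iterate_succ_apply']

lemma MK_comp (M M' : (ℤ →₀ W) →ₗ[k] (ℤ →₀ W)) (hM : ∀ n z, M (tr n z) = tr n (M z))
    (h : ∀ z, M (M' z) = z) (y : VV k W) : MK M (MK M' y) = y := by
  induction y using TensorProduct.induction_on with
  | zero => simp
  | tmul c w =>
    have h1 : MK M' (c ⊗ₜ[k] w) = c • JJ k W (M' (Finsupp.single 0 w)) := by
      rw [MK, LinearMap.liftBaseChange_tmul]
      rfl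
    rw [h1, map_smul, MK_JJ M hM, h, JJ_single, T_zero, map_one, TensorProduct.smul_tmul',
      smul_eq_mul, mul_one]
  | add x y hx hy => rw [map_add, map_add, hx, hy]

/-- The lattice. -/
noncomputable def Lam (k : Type*) [Field k] (W : Type*) [AddCommGroup W] [Module k W] :
    Submodule k[T;T⁻¹] (VV k W) where
  carrier := Set.range (JJ k W)
  add_mem' := by
    rintro _ _ ⟨a, rfl⟩ ⟨b, rfl⟩
    exact ⟨a + b, map_add _ _ _⟩
  zero_mem' := ⟨0, map_zero _⟩
  smul_mem' := by
    rintro r _ ⟨a, rfl⟩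
    obtain ⟨y, hy⟩ := smul_JJ r a
    exact ⟨y, hy.symm⟩

lemma mem_Lam {y : VV k W} : y ∈ Lam k W ↔ ∃ z, JJ k W z = y := Iff.rfl

lemma Lam_fg [Finite W] : (Lam k W).FG := by
  classical
  have : Fintype W := Fintype.ofFinite W
  refine ⟨Finset.univ.image (fun w : W => JJ k W (Finsupp.single 0 w)), le_antisymm ?_ ?_⟩
  · rw [Submodule.span_le]
    intro y hy
    simp only [Finset.coe_image, Finset.coe_univ, Set.image_univ, Set.mem_range] at hy
    obtain ⟨w, rfl⟩ := hy
    exact ⟨_, rfl⟩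
  · rintro _ ⟨z, rfl⟩
    induction z using Finsupp.induction_linear with
    | zero => rw [map_zero]; exact Submodule.zero_mem _
    | add a b ha hb => rw [map_add]; exact Submodule.add_mem _ ha hb
    | single n w =>
      have h1 : Finsupp.single n w = tr n (Finsupp.single 0 w) := by rw [tr_single, zero_add]
      rw [h1, JJ_tr, algebraMap_smul]
      apply Submodule.smul_mem
      apply Submodule.subset_span
      simp

/-- A representation of finitely supported functions with few values. -/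
lemma exists_rep (R : ℕ) : ∀ z : ℤ →₀ W, z.support.card ≤ R →
    ∃ w : Fin R → W, ∃ n : Fin R → ℤ, z = ∑ j, Finsupp.single (n j) (w j) := by
  classical
  induction R with
  | zero =>
    intro z hz
    refine ⟨Fin.elim0, Fin.elim0, ?_⟩
    have : z.support = ∅ := Finset.card_eq_zero.1 (Nat.le_zero.1 hz)
    rw [Finsupp.support_eq_empty] at this
    rw [this]; simp
  | succ R ih =>
    intro z hz
    by_cases hz0 : z = 0
    · refine ⟨fun _ => 0, fun _ => 0, ?_⟩
      simp [hz0]
    · obtain ⟨m, hm⟩ := Finsupp.support_nonempty_iff.2 hz0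
      obtain ⟨w, n, h⟩ := ih (z.erase m) (by
        rw [Finsupp.support_erase, Finset.card_erase_of_mem hm]
        omega)
      refine ⟨Fin.cons (z m) w, Fin.cons m n, ?_⟩
      rw [Fin.sum_univ_succ]
      simp only [Fin.cons_zero, Fin.cons_succ]
      rw [← h, Finsupp.single_add_erase]

end Pool.Agent.Lib.MP_b3f678_an
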