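import Pool.Agent.Lib.MP_b3f678_an.Lin2

namespace Pool.Agent.Lib.MP_b3f678_an

open LaurentPolynomial TensorProduct Polynomial Filter

/-- Given an endomorphism of a finite-dimensional space and a nonzero vector, there is a
polynomial multiple of the vector killed by a monic irreducible polynomial. -/
lemma exists_simple {K : Type*} [Field K] {V : Type*} [AddCommGroup V] [Module K V]
    [FiniteDimensional K V] (L : V →ₗ[K] V) (v : V) (hv : v ≠ 0) :
    ∃ q q1 : K[X], q1.Monic ∧ Irreducible q1 ∧ aeval L q v ≠ 0 ∧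
      aeval L q1 (aeval L q v) = 0 := by
  classical
  have hex : ∃ n : ℕ, ∃ f : K[X], f ≠ 0 ∧ aeval L f v = 0 ∧ f.natDegree = n :=
    ⟨_, minpoly K L, minpoly.ne_zero (Algebra.IsIntegral.isIntegral L), by
      rw [minpoly.aeval]; rfl, rfl⟩
  obtain ⟨f, hf0, hfv, hfn⟩ := Nat.find_spec hex
  have hmin : ∀ g : K[X], g ≠ 0 → aeval L g v = 0 → f.natDegree ≤ g.natDegree := by
    intro g hg hgv
    rw [hfn]
    exact Nat.find_min' hex ⟨g, hg, hgv, rfl⟩
  have hfu : ¬ IsUnit f := by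
    intro hu
    obtain ⟨g, hg⟩ := hu.exists_left_inv
    have : aeval L (g * f) v = 0 := by
      rw [map_mul, Module.End.mul_apply, hfv, map_zero]
    rw [hg, map_one] at this
    exact hv this
  obtain ⟨q1, hq1m, hq1i, q, hq⟩ := exists_monic_irreducible_factor f hfu
  have hq0 : q ≠ 0 := by
    rintro rfl
    rw [mul_zero] at hq
    exact hf0 hq
  refine ⟨q, q1, hq1m, hq1i, ?_, ?_⟩
  · intro h
    have h1 := hmin q hq0 h
    rw [hq, natDegree_mul hq1i.ne_zero hq0] at h1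
    have h2 := hq1i.natDegree_pos
    omega
  · rw [← Module.End.mul_apply, ← map_mul, ← hq, hfv]

lemma algebraMap_T_zpow (k : Type*) [Field k] (n : ℤ) :
    algebraMap k[T;T⁻¹] (KK k) (T n) = (algebraMap k[T;T⁻¹] (KK k) (T 1)) ^ n := by
  obtain m | m := n
  · rw [Int.ofNat_eq_natCast, zpow_natCast, ← map_pow, T_pow]
    simp
  · rw [zpow_negSucc, ← map_pow, T_pow]
    apply eq_inv_of_mul_eq_one_left
    rw [← map_mul, ← T_add, Int.negSucc_eq]
    have : -((m : ℤ) + 1) + ((m + 1 : ℕ) : ℤ) * 1 = 0 := by push_cast; ring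
    rw [this, T_zero, map_one]

variable {k : Type*} [Field k] {W : Type*} [AddCommGroup W] [Module k W]

theorem alg_lin [Finite W] (M M' : (ℤ →₀ W) →ₗ[k] (ℤ →₀ W))
    (hM : ∀ n z, M (tr n z) = tr n (M z)) (hM' : ∀ n z, M' (tr n z) = tr n (M' z))
    (h1 : ∀ z, M (M' z) = z) (h2 : ∀ z, M' (M z) = z)
    (z : ℤ →₀ W) (hz : z ≠ 0) (R : ℕ)
    (hR : ∃ᶠ t : ℕ in atTop, (M^[t] z).support.card ≤ R) :
    ∃ w : ℤ →₀ W, w ≠ 0 ∧ ∃ a : ℕ, 0 < a ∧ ∃ b : ℤ, M^[a] w = tr b w := by
  classical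
  have : Module.Finite k W := Module.Finite.of_finite
  set L := MK M with hL
  have hJz : JJ k W z ≠ 0 := fun h => hz (JJ_injective (by rw [h, map_zero]))
  obtain ⟨q, q1, hq1m, hq1i, hqv, hq1v⟩ := exists_simple L (JJ k W z) hJz
  set v := aeval L q (JJ k W z) with hv
  have : Fact (Irreducible q1) := ⟨hq1i⟩
  let E := AdjoinRoot q1
  have hfin : FiniteDimensional (KK k) E := (AdjoinRoot.powerBasis hq1i.ne_zero).finite
  set l : E := AdjoinRoot.root q1 with hl
  -- the embedding of `E`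
  let A : (KK k)[X] →ₗ[KK k] VV k W :=
    (LinearMap.applyₗ v) ∘ₗ (aeval L : (KK k)[X] →ₐ[KK k] Module.End (KK k) (VV k W)).toLinearMap
  have hA : ∀ f, A f = aeval L f v := fun f => rfl
  let ψ : E →ₗ[KK k] VV k W := A ∘ₗ (AdjoinRoot.modByMonicHom hq1m)
  have hψ : ∀ f : (KK k)[X], ψ (AdjoinRoot.mk q1 f) = aeval L f v := by
    intro f
    show A (AdjoinRoot.modByMonicHom hq1m (AdjoinRoot.mk q1 f)) = _
    rw [AdjoinRoot.modByMonicHom_mk, hA]
    conv_rhs => rw [← modByMonic_add_div f q1]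
    rw [map_add, LinearMap.add_apply, mul_comm, map_mul, Module.End.mul_apply, hq1v, map_zero,
      add_zero]
  have hψinj : LinearMap.ker ψ = ⊥ := by
    rw [LinearMap.ker_eq_bot']
    intro e he
    obtain ⟨f, rfl⟩ := AdjoinRoot.mk_surjective e
    rw [hψ] at he
    rw [AdjoinRoot.mk_eq_zero]
    by_contra hnd
    obtain ⟨a, b, hab⟩ := ((Irreducible.coprime_iff_not_dvd hq1i).2 hnd)
    have : aeval L (a * q1 + b * f) v = 0 := by
      rw [map_add, LinearMap.add_apply, map_mul, map_mul, Module.End.mul_apply,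
        Module.End.mul_apply, hq1v, he, map_zero, map_zero, add_zero]
    rw [hab, map_one] at this
    exact hqv this
  have hψl : ∀ e, ψ (l * e) = L (ψ e) := by
    intro e
    obtain ⟨f, rfl⟩ := AdjoinRoot.mk_surjective e
    have : l * AdjoinRoot.mk q1 f = AdjoinRoot.mk q1 (X * f) := by
      rw [map_mul, AdjoinRoot.mk_X]
    rw [this, hψ, hψ, map_mul, aeval_X, Module.End.mul_apply]
  have hψ1 : ψ 1 = v := by
    have := hψ 1
    rw [map_one (AdjoinRoot.mk q1)] at this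
    rw [this, map_one]
    rfl
  have hψpow : ∀ t : ℕ, ψ (l ^ t) = (L ^ t) v := by
    intro t
    induction t with
    | zero => simpa using hψ1
    | succ t ih => rw [pow_succ', hψl, ih, pow_succ', Module.End.mul_apply]
  have hLL' : ∀ y, L (MK M' y) = y := MK_comp M M' hM h1
  have hL'L : ∀ y, MK M' (L y) = y := MK_comp M' M hM' h2
  have hl0 : l ≠ 0 := by
    intro h
    have h3 := hψl 1
    rw [h, zero_mul, map_zero, hψ1] at h3
    apply hqv
    rw [← hL'L v, ← h3, map_zero]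
  -- integrality
  let NE : Submodule k[T;T⁻¹] E := (Lam k W).comap (ψ.restrictScalars k[T;T⁻¹])
  have hNE : ∀ e, e ∈ NE ↔ ψ e ∈ Lam k W := fun e => Iff.rfl
  have hNEfg : NE.FG := by
    have hno : IsNoetherian k[T;T⁻¹] (Lam k W) := isNoetherian_of_fg_of_noetherian _ Lam_fg
    apply Submodule.fg_of_fg_map_injective (ψ.restrictScalars k[T;T⁻¹])
    · exact (LinearMap.ker_eq_bot.1 hψinj : Function.Injective ψ)
    · exact Submodule.FG.of_le (Lam_fg) (Submodule.map_comap_le _ _)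
  have hNEbot : NE ≠ ⊥ := by
    obtain ⟨r, hr, y, hy⟩ := exists_smul_eq_JJ v
    intro hbot
    have hmem : r • (1 : E) ∈ NE := by
      rw [hNE]
      refine ⟨y, ?_⟩
      rw [← hy, ← algebraMap_smul (KK k) r (1 : E), map_smul, hψ1, algebraMap_smul]
    rw [hbot, Submodule.mem_bot] at hmem
    have h3 : ψ (r • (1 : E)) = r • v := by
      rw [← algebraMap_smul (KK k) r (1 : E), map_smul, hψ1, algebraMap_smul]
    rw [hmem, map_zero, ← algebraMap_smul (KK k) r v] at h3
    rcases smul_eq_zero.1 h3.symm with h4 | h4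
    · exact hr (IsFractionRing.injective k[T;T⁻¹] (KK k) (by rw [h4, map_zero]))
    · exact hqv h4
  have hLLam : ∀ y ∈ Lam k W, L y ∈ Lam k W := by
    rintro _ ⟨y, rfl⟩
    exact ⟨M y, (MK_JJ M hM y).symm⟩
  have hL'Lam : ∀ y ∈ Lam k W, MK M' y ∈ Lam k W := by
    rintro _ ⟨y, rfl⟩
    exact ⟨M' y, (MK_JJ M' hM' y).symm⟩
  have hint : IsIntegral k[T;T⁻¹] l := by
    refine isIntegral_of_smul_mem_submodule NE hNEbot hNEfg l ?_
    intro e he
    rw [hNE, smul_eq_mul, hψl]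
    exact hLLam _ he
  have hint' : IsIntegral k[T;T⁻¹] l⁻¹ := by
    refine isIntegral_of_smul_mem_submodule NE hNEbot hNEfg l⁻¹ ?_
    intro e he
    rw [hNE, smul_eq_mul]
    have h3 : ψ (l⁻¹ * e) = MK M' (ψ e) := by
      have h4 := hψl (l⁻¹ * e)
      rw [← mul_assoc, mul_inv_cancel₀ hl0, one_mul] at h4
      rw [h4, hL'L]
    rw [h3]
    exact hL'Lam _ he
  have hν := v0_mul_v1_norm k l hl0 hint hint'
  -- left inverse
  obtain ⟨Φ, hΦ⟩ := LinearMap.exists_leftInverse_of_injective ψ hψinj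
  have hΦψ : ∀ e, Φ (ψ e) = e := fun e => LinearMap.congr_fun hΦ e
  let Ψ : VV k W →ₗ[KK k] E := Φ ∘ₗ (aeval L q)
  have hpow : ∀ t : ℕ, l ^ t = Ψ (JJ k W (M^[t] z)) := by
    intro t
    rw [← hΦψ (l ^ t), hψpow, hv, ← MK_pow_JJ M hM]
    show _ = Φ (aeval L q ((MK M ^ t) (JJ k W z)))
    rw [← hL]
    congr 1
    have hc : Commute (L ^ t) (aeval L q) :=
      (Commute.pow_left (by
        have : Commute (aeval L (X : (KK k)[X])) (aeval L q) := by
          show _ = _
          rw [← map_mul, ← map_mul, mul_comm]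
        rwa [aeval_X] at this) t)
    rw [← Module.End.mul_apply, ← Module.End.mul_apply, hc.eq]
  -- pigeonhole on values
  have hfreq : ∃ᶠ t : ℕ in atTop, ∃ w : Fin R → W, ∃ n : Fin R → ℤ,
      M^[t] z = ∑ j, Finsupp.single (n j) (w j) := hR.mono fun t ht => exists_rep R _ ht
  obtain ⟨w, hw⟩ : ∃ w : Fin R → W, ∃ᶠ t : ℕ in atTop, ∃ n : Fin R → ℤ,
      M^[t] z = ∑ j, Finsupp.single (n j) (w j) := by
    by_contra hcon
    push Not at hcon
    apply hfreq
    rw [← Filter.eventually_all] at hcon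
    refine hcon.mono fun t ht => ?_
    push Not
    exact ht
  obtain ⟨s, hs, hsn⟩ := Filter.extraction_of_frequently_atTop hw
  choose n hn using hsn
  obtain ⟨a, ha, b, hab⟩ := core (v0 k) (v1 k) (algebraMap k[T;T⁻¹] _ (T 1)) (v0_T k) (v1_T k) l hl0
    hν (Finset.univ : Finset (Fin R)).card Finset.univ rfl s hs (fun j m => n m j)
    (fun j => Ψ ((1 : KK k) ⊗ₜ w j)) (by
      intro m
      rw [hpow, hn, map_sum, map_sum]
      refine Finset.sum_congr rfl fun j _ => ?_
      rw [JJ_single, ← Algebra.smul_def, ← map_smul, TensorProduct.smul_tmul', smul_eq_mul, mul_one]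
      rw [algebraMap_T_zpow])
  obtain ⟨r, hr, y, hy⟩ := exists_smul_eq_JJ v
  refine ⟨y, ?_, a, ha, b, ?_⟩
  · rintro rfl
    rw [map_zero, ← algebraMap_smul (KK k) r v] at hy
    rcases smul_eq_zero.1 hy with h4 | h4
    · exact hr (IsFractionRing.injective k[T;T⁻¹] (KK k) (by rw [h4, map_zero]))
    · exact hqv h4
  · apply JJ_injective (k := k)
    have h5 : (L ^ a) v = (algebraMap k[T;T⁻¹] (KK k) (T b)) • v := by
      rw [← hψpow, hab, algebraMap_T_zpow k b, Algebra.algebraMap_eq_smul_one, map_smul, hψ1]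
    rw [← MK_pow_JJ M hM, ← hy, JJ_tr, ← hy, ← algebraMap_smul (KK k) r v, map_smul, ← hL, h5,
      smul_comm]

end Pool.Agent.Lib.MP_b3f678_an
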