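import Pool.Agent.Lib.MP_b3f678_an.Dicho

namespace Pool.Agent.Lib.MP_b3f678_an

open Filter Topology MeasureTheory ProbabilityTheory

variable {A : Type*} [AddCommGroup A] [Finite A] [TopologicalSpace A] [DiscreteTopology A]
  [MeasurableSpace A] [DiscreteMeasurableSpace A]


/-- Fourier coefficients of product measures. -/
lemma fourierCoef_infinitePi (ν : Measure A) [IsProbabilityMeasure ν] (χ : ℤ →₀ AddChar A ℂ) :
    fourierCoef (Measure.infinitePi fun _ : ℤ => ν) χ = ∏ k ∈ χ.support, ∫ a, χ k a ∂ν := by
  classical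
  have h1 : ∀ x : ℤ → A, charEval χ x =
      (fun y : (i : χ.support) → A => ∏ i : χ.support, χ i (y i)) (χ.support.restrict x) := by
    intro x
    simp only [Finset.restrict]
    rw [charEval, ← Finset.prod_coe_sort]
  have h2 := integral_restrict_infinitePi (X := fun _ : ℤ => A) (μ := fun _ : ℤ => ν)
    (s := χ.support) (f := fun y : (i : χ.support) → A => ∏ i : χ.support, χ i (y i))
    (Measurable.of_discrete).aestronglyMeasurable
  rw [fourierCoef, integral_congr_ae (Eventually.of_forall h1)]
  refine h2.trans ?_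
  rw [integral_fintype_prod_eq_prod (f := fun (i : χ.support) a => χ i a)]
  exact Finset.prod_coe_sort χ.support (fun k => ∫ a, χ k a ∂ν)

omit [TopologicalSpace A] [DiscreteTopology A] in
lemma integral_uniformOn (c : AddChar A ℂ) (hc : c ≠ 0) :
    ∫ a, c a ∂(uniformOn (Set.univ : Set A)) = 0 := by
  have : Fintype A := Fintype.ofFinite A
  rw [uniformOn, ProbabilityTheory.cond, Measure.restrict_univ, integral_smul_measure, integral_count,
    AddChar.sum_eq_zero_iff_ne_zero.2 hc, smul_zero]

lemma fourierCoef_uniform (χ : ℤ →₀ AddChar A ℂ) (hχ : χ ≠ 0) :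
    fourierCoef (uniformBernoulli A) χ = 0 := by
  rw [uniformBernoulli, fourierCoef_infinitePi]
  obtain ⟨k, hk⟩ := Finsupp.support_nonempty_iff.2 hχ
  exact Finset.prod_eq_zero hk (integral_uniformOn _ (Finsupp.mem_support_iff.1 hk))

/-- The half-uniform marginal. -/
noncomputable def halfMeasure (A : Type*) [AddCommGroup A] [MeasurableSpace A] : Measure A :=
  (2⁻¹ : ENNReal) • uniformOn (Set.univ : Set A) + (2⁻¹ : ENNReal) • Measure.dirac 0

instance : IsProbabilityMeasure (halfMeasure A) := by
  constructor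
  rw [halfMeasure, Measure.add_apply, Measure.smul_apply, Measure.smul_apply, measure_univ,
    measure_univ, smul_eq_mul, mul_one, ENNReal.inv_two_add_inv_two]

omit [TopologicalSpace A] [DiscreteTopology A] in
lemma integral_half (c : AddChar A ℂ) (hc : c ≠ 0) : ∫ a, c a ∂(halfMeasure A) = 1 / 2 := by
  have hint : ∀ ρ : Measure A, IsFiniteMeasure ρ → Integrable (fun a => c a) ρ := by
    intro ρ hρ
    exact Integrable.of_finite
  rw [halfMeasure, integral_add_measure, integral_smul_measure, integral_smul_measure,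
    integral_uniformOn c hc, integral_dirac, AddChar.map_zero_eq_one]
  · simp
  · exact (hint _ inferInstance).smul_measure (by simp)
  · exact (hint _ inferInstance).smul_measure (by simp)

lemma fourierCoef_half (χ : ℤ →₀ AddChar A ℂ) :
    fourierCoef (Measure.infinitePi fun _ : ℤ => halfMeasure A) χ = (1 / 2) ^ rank χ := by
  rw [fourierCoef_infinitePi, Finset.prod_congr rfl (fun k hk =>
    integral_half (χ k) (Finsupp.mem_support_iff.1 hk)), Finset.prod_const, rank]

lemma harmonicallyMixing_half :
    HarmonicallyMixing (Measure.infinitePi fun _ : ℤ => halfMeasure A) := by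
  intro ε hε
  obtain ⟨R, hR⟩ := exists_pow_lt_of_lt_one hε (by norm_num : (1 / 2 : ℝ) < 1)
  refine ⟨R, fun χ hχ => ?_⟩
  rw [fourierCoef_half, norm_pow]
  have : ‖(1 / 2 : ℂ)‖ = 1 / 2 := by norm_num
  rw [this]
  refine lt_of_le_of_lt ?_ hR
  exact pow_le_pow_of_le_one (by norm_num) (by norm_num) hχ.le

end Pool.Agent.Lib.MP_b3f678_an
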